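import Pool.Agent.Y813.LE.CZero
import Pool.Agent.Y813.RL.Per

set_option autoImplicit false
set_option linter.unusedSectionVars false

/-!
# Asymptotics of the zeroth Fourier-Jacobi coefficient
-/

namespace Pool.Agent.Y813.LE

open Complex Set Finset Topology Pool.Agent.Y813.RL Pool.Agent.Y683.RL

noncomputable section

/-- exact exponential order of nonzero periodic functions of at most exponential growth -/
theorem per_asym {f : ℂ → ℂ} (hf : HP 0 f) (hne : ∃ t : ℂ, 0 < t.im ∧ f t ≠ 0) {M a : ℝ}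
    (hM : ∀ t : ℂ, 1 ≤ t.im → ‖f t‖ ≤ M * Real.exp (a * t.im)) :
    ∃ (n₀ : ℤ) (c T₁ : ℝ), 0 < c ∧ ∀ t : ℂ, T₁ ≤ t.im →
      c * Real.exp (-(2 * Real.pi * n₀ * t.im)) ≤ ‖f t‖ ∧
      ‖f t‖ ≤ 3 * c * Real.exp (-(2 * Real.pi * n₀ * t.im)) := by
  classical
  have hpi := Real.pi_pos
  have h1 : ∃ n : ℤ, fco 0 f n ≠ 0 := by
    by_contra hcon
    push Not at hcon
    obtain ⟨t, ht, hft⟩ := hne
    have := (hf.hasSum ht).2
    simp only [hcon, zero_mul] at this
    exact hft (this.unique hasSum_zero)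
  have h2 : ∀ n : ℤ, fco 0 f n ≠ 0 → -⌈|a| + 1⌉ ≤ n := by
    intro n hn
    by_contra hlt
    push Not at hlt
    apply hn
    apply fco_zero hf hM
    have h3 : (n : ℝ) < -(|a| + 1) := by
      have : (n : ℝ) < ((-⌈|a| + 1⌉ : ℤ) : ℝ) := by exact_mod_cast hlt
      push_cast at this
      linarith [Int.le_ceil (|a| + 1)]
    have h4 : a ≤ |a| := le_abs_self a
    have h5 : (1 : ℝ) ≤ 2 * Real.pi := by linarith [Real.pi_gt_three]
    nlinarith [abs_nonneg a]
  obtain ⟨n₀, hn₀, hmin⟩ := Int.exists_least_of_bdd (P := fun n => fco 0 f n ≠ 0)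
    ⟨-⌈|a| + 1⌉, h2⟩ h1
  obtain ⟨C, hC, hb⟩ := part_bound hf (g := fun n => if n = n₀ then 0 else fco 0 f n)
    (n₁ := n₀ + 1) (fun n => by
      by_cases h : n = n₀
      · simp [h]
      · simp [h]) (fun n hn => by
      by_cases h : n = n₀
      · simp [h]
      · simp only [h, if_false]
        by_contra h3
        have h4 := hmin n h3
        have h5 : n < n₀ + 1 := by exact_mod_cast hn
        omega)
  set c := ‖fco 0 f n₀‖ with hc
  have hc0 : 0 < c := norm_pos_iff.2 hn₀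
  have ht : Filter.Tendsto (fun T : ℝ => C * Real.exp (-(2 * Real.pi) * T)) Filter.atTop
      (𝓝 (C * 0)) := by
    refine Filter.Tendsto.const_mul _ ?_
    refine Real.tendsto_exp_atBot.comp ?_
    exact Filter.Tendsto.const_mul_atTop_of_neg (by linarith) Filter.tendsto_id
  rw [mul_zero] at ht
  obtain ⟨T, hT⟩ := Filter.eventually_atTop.1
    (ht.eventually (gt_mem_nhds (show (0 : ℝ) < c / 2 by positivity)))
  refine ⟨n₀, c / 2, max T (1 / 2), by positivity, fun t htm => ?_⟩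
  have ht1 : T ≤ t.im := (le_max_left _ _).trans htm
  have ht2 : 1 / 2 ≤ t.im := (le_max_right _ _).trans htm
  have hsum := (hf.hasSum (t := t) (by linarith)).2
  have hs1 : HasSum (fun n : ℤ => if n = n₀ then fco 0 f n₀ * ee (n₀ * t) else 0)
      (fco 0 f n₀ * ee (n₀ * t)) := by
    have := hasSum_single (f := fun n : ℤ => if n = n₀ then fco 0 f n₀ * ee (n₀ * t) else 0) n₀
      (fun n hn => by simp [hn])
    simpa using this
  have hs2 := hsum.sub hs1
  have hs3 : HasSum (fun n : ℤ => (if n = n₀ then 0 else fco 0 f n) * ee (n * t))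
      (f t - fco 0 f n₀ * ee (n₀ * t)) := by
    have hfun : (fun n : ℤ => (if n = n₀ then 0 else fco 0 f n) * ee (n * t)) =
        fun n : ℤ => fco 0 f n * ee (n * t) -
          (if n = n₀ then fco 0 f n₀ * ee (n₀ * t) else 0) := by
      funext n
      by_cases h : n = n₀
      · simp [h]
      · simp [h]
    rw [hfun]
    exact hs2
  have h3 := hb t ht2 _ hs3
  have h4 : ‖fco 0 f n₀ * ee (n₀ * t)‖ = c * Real.exp (-(2 * Real.pi * n₀ * t.im)) := by
    rw [norm_mul, norm_ee]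
    congr 2
    rw [Complex.mul_im]
    simp
    ring
  have h5 : ‖fco 0 f n₀ * ee (n₀ * t)‖ ≤ ‖f t‖ + ‖f t - fco 0 f n₀ * ee (n₀ * t)‖ := by
    have := norm_sub_le (f t) (f t - fco 0 f n₀ * ee (n₀ * t))
    rwa [sub_sub_cancel] at this
  have h5' : ‖f t‖ ≤ ‖fco 0 f n₀ * ee (n₀ * t)‖ + ‖f t - fco 0 f n₀ * ee (n₀ * t)‖ := by
    have := norm_add_le (fco 0 f n₀ * ee (n₀ * t)) (f t - fco 0 f n₀ * ee (n₀ * t))
    rwa [add_sub_cancel] at this
  rw [h4] at h5 h5'
  have h6 : C * Real.exp (-(2 * Real.pi * (n₀ + 1) * t.im)) =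
      (C * Real.exp (-(2 * Real.pi) * t.im)) * Real.exp (-(2 * Real.pi * n₀ * t.im)) := by
    rw [mul_assoc C, ← Real.exp_add]
    congr 2
    ring
  rw [h6] at h3
  have h7 := hT t.im ht1
  have h8 := Real.exp_pos (-(2 * Real.pi * n₀ * t.im))
  have h9 : (C * Real.exp (-(2 * Real.pi) * t.im)) * Real.exp (-(2 * Real.pi * n₀ * t.im)) ≤
      c / 2 * Real.exp (-(2 * Real.pi * n₀ * t.im)) := by
    gcongr
  constructor
  · linarith
  · linarith

variable {r : ℕ} [NeZero r] {G : Matrix (Fin r) (Fin r) ℤ}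
  {k : ℤ} {β : ℕ} {F : TP r → ℂ} {φ : ℕ → ℂ × (Fin r → ℂ) → ℂ}

/-- the exponential order of the zeroth coefficient -/
theorem phi0_asym (hKD : JobKD) (h : ER G) (hF : TubeForm G k β F) (hφ : FJD G F φ) :
    ∃ (A : ℤ) (c T₁ : ℝ), 0 < c ∧ 1 ≤ T₁ ∧ ∀ (τ : ℂ) (z : Fin r → ℂ), T₁ ≤ τ.im →
      c * Real.exp (-(2 * Real.pi * A * τ.im)) ≤ ‖φ 0 (τ, z)‖ ∧
      ‖φ 0 (τ, z)‖ ≤ 3 * c * Real.exp (-(2 * Real.pi * A * τ.im)) := by
  obtain ⟨M, hM⟩ := bound_slice hKD h.toPosD hF (0 : Fin r → ℤ) (N := 1) one_pos one_pos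
  set f : ℂ → ℂ := fun τ => φ 0 (τ, 0) with hf
  have hHP : HP 0 f := by
    constructor
    · refine (hφ.holo 0).comp (t := UP r) (f := fun τ : ℂ => (τ, (0 : Fin r → ℂ))) ?_
        fun t ht => ht
      fun_prop
    · intro t ht
      exact law_T hF hφ 0 0 ht
  have hx0 : xr (0 : Fin r → ℤ) 1 = 0 := by
    funext i; simp [xr]
  have hbf0 : bf G (0 : Fin r → ℝ) 0 = 0 := bf_zero_left _ _
  have hbound : ∀ t : ℂ, 1 ≤ t.im → ‖f t‖ ≤ max M 0 * Real.exp (0 * t.im) := by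
    intro t ht
    have ht0 : 0 < t.im := by linarith
    have him0 : imv (0 : Fin r → ℂ) = 0 := by funext i; simp [imv]
    have hbh : bh G (t, (0 : Fin r → ℂ)) = 0 := by
      unfold bh
      rw [him0, hbf0, zero_div]
    simp only [hf, zero_mul, Real.exp_zero, mul_one]
    rw [hφ.coeff 0 (t, 0) t.im ht0 (by rw [hbh]; exact ht0)]
    have h3 : ∀ u ∈ Set.uIoc (0 : ℝ) 1, ‖F ((u : ℂ) + (t.im : ℂ) * Complex.I, (t, 0)) *
        ee (-(((0 : ℕ) : ℂ) * ((u : ℂ) + (t.im : ℂ) * Complex.I)))‖ ≤ max M 0 := by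
      intro u _
      have e1 : ee (-(((0 : ℕ) : ℂ) * ((u : ℂ) + (t.im : ℂ) * Complex.I))) = 1 := by
        simp [Pool.Agent.Y813.RL.ee_zero]
      rw [e1, mul_one]
      refine (hM _ ht ?_ ?_).trans (le_max_left _ _)
      · rw [hx0]
        show imv (0 : Fin r → ℂ) = _
        rw [him0, smul_zero]
      · rw [hx0, hbf0]
        simp
    have := intervalIntegral.norm_integral_le_of_norm_le_const h3
    simpa using this
  obtain ⟨A, c, T₁, hc, hA⟩ := per_asym hHP ⟨Complex.I, by simp, phi0_ne_zero h hF hφ (by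
    show 0 < Complex.I.im
    simp)⟩ hbound
  refine ⟨A, c, max T₁ 1, hc, le_max_right _ _, fun τ z hτ => ?_⟩
  have hτ0 : 0 < τ.im := lt_of_lt_of_le one_pos ((le_max_right _ _).trans hτ)
  rw [phi0_const hF hφ hτ0 z]
  exact hA τ ((le_max_left _ _).trans hτ)

end

end Pool.Agent.Y813.LE
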