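import Pool.Agent.Y813.LE.NonV

set_option autoImplicit false
set_option linter.unusedSectionVars false

/-!
# The leading Fourier-Jacobi coefficient has index zero
-/

namespace Pool.Agent.Y813.LE

open Complex Set Finset Topology Pool.Agent.Y813.RL

noncomputable section

variable {r : ℕ} [NeZero r] {G : Matrix (Fin r) (Fin r) ℤ}

/-- a continuous function with the periods `Z^r + τ Z^r` is bounded -/
theorem bounded_of_periods {E : Type*} [NormedAddCommGroup E] {τ : ℂ} (hτ : 0 < τ.im)
    {g : (Fin r → ℂ) → E} (hg : Continuous g)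
    (h1 : ∀ (z : Fin r → ℂ) (v : Fin r → ℤ), g (fun i => z i + (v i : ℂ)) = g z)
    (h2 : ∀ (z : Fin r → ℂ) (v : Fin r → ℤ), g (fun i => z i + τ * (v i : ℂ)) = g z) :
    ∃ M : ℝ, ∀ z, ‖g z‖ ≤ M := by
  have hK : IsCompact (Icc (0 : Fin r → ℝ) 1 ×ˢ Icc (0 : Fin r → ℝ) 1) :=
    isCompact_Icc.prod isCompact_Icc
  have hc : Continuous fun q : (Fin r → ℝ) × (Fin r → ℝ) =>
      g (fun i => (q.1 i : ℂ) + τ * (q.2 i : ℂ)) := by
    refine hg.comp ?_
    fun_prop
  obtain ⟨M, hM⟩ := hK.exists_bound_of_continuousOn hc.continuousOn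
  refine ⟨M, fun z => ?_⟩
  let b : Fin r → ℝ := fun i => (z i).im / τ.im
  let a : Fin r → ℝ := fun i => (z i).re - τ.re * b i
  have hz : z = fun i => (a i : ℂ) + τ * (b i : ℂ) := by
    funext i
    apply Complex.ext
    · simp [a]
    · simp [b]
      field_simp
  have e1 : g z = g (fun i => ((Int.fract (a i) : ℝ) : ℂ) + τ * ((Int.fract (b i) : ℝ) : ℂ)) := by
    have e2 : z = fun i => (fun i => (fun i => ((Int.fract (a i) : ℝ) : ℂ) +
        τ * ((Int.fract (b i) : ℝ) : ℂ)) i + τ * ((⌊b i⌋ : ℤ) : ℂ)) i + ((⌊a i⌋ : ℤ) : ℂ) := by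
      rw [hz]
      funext i
      have ha : ((Int.fract (a i) : ℝ) : ℂ) = (a i : ℂ) - (⌊a i⌋ : ℂ) := by
        rw [← Int.self_sub_floor]; push_cast; ring
      have hb : ((Int.fract (b i) : ℝ) : ℂ) = (b i : ℂ) - (⌊b i⌋ : ℂ) := by
        rw [← Int.self_sub_floor]; push_cast; ring
      simp only
      rw [ha, hb]
      ring
    conv_lhs => rw [e2]
    rw [h1, h2]
  rw [e1]
  exact hM (fun i => Int.fract (a i), fun i => Int.fract (b i))
    ⟨⟨fun i => Int.fract_nonneg _, fun i => (Int.fract_lt_one _).le⟩,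
      ⟨fun i => Int.fract_nonneg _, fun i => (Int.fract_lt_one _).le⟩⟩

/-- one variable version -/
theorem bounded_of_periods_one {τ : ℂ} (hτ : 0 < τ.im) {g : ℂ → ℂ} (hg : Continuous g)
    (h1 : ∀ z, g (z + 1) = g z) (h2 : ∀ z, g (z + τ) = g z) : ∃ M : ℝ, ∀ z, ‖g z‖ ≤ M := by
  have h1' : ∀ (n : ℤ) z, g (z + n) = g z := by
    have hp : Function.Periodic g 1 := h1
    intro n z
    have := hp.int_mul n z
    simpa using this
  have h2' : ∀ (n : ℤ) z, g (z + n * τ) = g z := by
    have hp : Function.Periodic g τ := h2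
    intro n z
    exact hp.int_mul n z
  obtain ⟨M, hM⟩ := bounded_of_periods (r := 1) hτ (g := fun z : Fin 1 → ℂ => g (z 0))
    (hg.comp (continuous_apply 0)) (fun z v => h1' _ _) (fun z v => by
      show g (z 0 + τ * (v 0 : ℂ)) = g (z 0)
      rw [mul_comm]; exact h2' _ _)
  exact ⟨M, fun z => hM (fun _ => z)⟩

variable {k : ℤ} {β : ℕ} {F : TP r → ℂ} {φ : ℕ → ℂ × (Fin r → ℂ) → ℂ} {C : ℕ}

/-- the index is zero -/
theorem index_zero (h : ER G) (hF : TubeForm G k β F) (hφ : FJD G F φ)
    (hC : ∀ j < C, ∀ p ∈ UP r, φ j p = 0) (hne : ∃ p ∈ UP r, φ C p ≠ 0) : C = 0 := by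
  by_contra hC0
  set v : Fin r → ℤ := Pi.single 0 1 with hv
  set q : ℤ := bf G v v with hq
  have hqpos : 0 < q := bf_single_pos h.toPosD
  have hI : 0 < Complex.I.im := by simp
  set f : ℂ → ℂ := fun t => φ C (Complex.I, fun i => t * (v i : ℂ)) with hf
  have hfd : Differentiable ℂ f := by
    rw [← differentiableOn_univ]
    refine (hφ.holo C).comp (t := UP r) (f := fun t : ℂ =>
      (Complex.I, fun i => t * (v i : ℂ))) ?_ fun t _ => hI
    fun_prop
  have hfne : ∀ t, f t ≠ 0 := fun t => leading_ne_zero h hF hφ hC hne hI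
  have hf1 : ∀ t, f (t + 1) = f t := by
    intro t
    have := law_z hF hφ C (fun i => t * (v i : ℂ)) v hI
    simp only [hf]
    rw [← this]
    congr 2
    funext i
    ring
  have hf2 : ∀ t, f (t + Complex.I) =
      ee (-(C * (t * q + q / 2 * Complex.I))) * f t := by
    intro t
    have := law_q hF hφ C (fun i => t * (v i : ℂ)) v hI
    have e1 : bf G (fun i => (v i : ℂ)) (fun i => t * (v i : ℂ)) = t * q := by
      have : (fun i => t * (v i : ℂ)) = t • fun i => (v i : ℂ) := rfl
      rw [this, bf_smul_right, bf_intCast]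
    have e2 : bf G (fun i => (v i : ℂ)) (fun i => (v i : ℂ)) = q := bf_intCast G v v
    rw [e1, e2] at this
    simp only [hf]
    rw [← this]
    congr 2
    funext i
    ring
  set ψ : ℂ → ℂ := fun t => deriv f t / f t with hψ
  have hdf : Differentiable ℂ (deriv f) := by
    intro t
    exact (hfd.analyticAt t).deriv.differentiableAt
  have hψd : Differentiable ℂ ψ := hdf.div hfd hfne
  have hψ1 : ∀ t, ψ (t + 1) = ψ t := by
    intro t
    have : deriv f (t + 1) = deriv f t := by
      have e : f = fun t => f (t + 1) := by funext t; rw [hf1]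
      conv_rhs => rw [e]
      rw [deriv_comp_add_const]
    simp only [hψ, this, hf1]
  set κ : ℂ := -(2 * Real.pi * Complex.I * C * q) with hκ
  have hψ2 : ∀ t, ψ (t + Complex.I) = ψ t + κ := by
    intro t
    have e : (fun t => f (t + Complex.I)) =
        fun t => ee (-(C * (t * q + q / 2 * Complex.I))) * f t := by
      funext t; rw [hf2]
    have hee : HasDerivAt (fun t : ℂ => ee (-(C * (t * q + q / 2 * Complex.I))))
        (κ * ee (-(C * (t * q + q / 2 * Complex.I)))) t := by
      unfold ee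
      have h0 : HasDerivAt (fun t : ℂ => 2 * (Real.pi : ℂ) * Complex.I *
          (-(C * (t * q + q / 2 * Complex.I)))) κ t := by
        have h1 : HasDerivAt (fun t : ℂ => t) 1 t := hasDerivAt_id t
        have h2 : HasDerivAt (fun t : ℂ => 2 * (Real.pi : ℂ) * Complex.I *
          (-(C * (t * q + q / 2 * Complex.I)))) (2 * (Real.pi : ℂ) * Complex.I *
          (-(C * (1 * q)))) t :=
          (((h1.mul_const (q : ℂ)).add_const ((q : ℂ) / 2 * Complex.I)).const_mul
          (C : ℂ)).neg.const_mul (2 * (Real.pi : ℂ) * Complex.I)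
        have h3 : κ = 2 * (Real.pi : ℂ) * Complex.I * (-(C * (1 * q))) := by
          rw [hκ]; ring
        rw [h3]
        exact h2
      rw [mul_comm κ]
      exact h0.cexp
    have h3 : deriv f (t + Complex.I) = κ * ee (-(C * (t * q + q / 2 * Complex.I))) * f t +
        ee (-(C * (t * q + q / 2 * Complex.I))) * deriv f t := by
      rw [← deriv_comp_add_const, e]
      exact (hee.mul (hfd t).hasDerivAt).deriv
    simp only [hψ]
    rw [h3, hf2]
    have h4 := ee_ne_zero (-((C : ℂ) * (t * q + q / 2 * Complex.I)))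
    have h5 := hfne t
    generalize ee (-((C : ℂ) * (t * q + q / 2 * Complex.I))) = E at h4 ⊢
    rw [div_eq_iff (mul_ne_zero h4 h5), add_mul, div_mul_eq_mul_div, ← mul_assoc,
      mul_comm (deriv f t * E), ← mul_assoc, mul_div_assoc]
    field_simp
    ring
  have hdψ : Differentiable ℂ (deriv ψ) := by
    intro t
    exact (hψd.analyticAt t).deriv.differentiableAt
  have hp1 : ∀ t, deriv ψ (t + 1) = deriv ψ t := by
    intro t
    rw [← deriv_comp_add_const]
    congr 1
    funext t
    rw [hψ1]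
  have hp2 : ∀ t, deriv ψ (t + Complex.I) = deriv ψ t := by
    intro t
    rw [← deriv_comp_add_const]
    have : (fun t => ψ (t + Complex.I)) = fun t => ψ t + κ := by
      funext t
      rw [hψ2]
    rw [this, deriv_add_const]
  obtain ⟨M, hM⟩ := bounded_of_periods_one hI hdψ.continuous hp1 hp2
  have hconst : ∀ t, deriv ψ t = deriv ψ 0 := by
    intro t
    apply hdψ.apply_eq_apply_of_bounded
    rw [isBounded_iff_forall_norm_le]
    exact ⟨M, by rintro _ ⟨z, rfl⟩; exact hM z⟩
  set c₁ := deriv ψ 0 with hc₁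
  have hlin : ∀ t, ψ t = ψ 0 + c₁ * t := by
    intro t
    have h1 : Differentiable ℂ fun t => ψ t - c₁ * t := by fun_prop
    have h2 : ∀ t, deriv (fun t => ψ t - c₁ * t) t = 0 := by
      intro t
      have h3 : HasDerivAt (fun t => ψ t - c₁ * t) (deriv ψ t - c₁ * 1) t :=
        (hψd t).hasDerivAt.sub ((hasDerivAt_id t).const_mul c₁)
      rw [h3.deriv, hconst]
      ring
    have h4 := is_const_of_deriv_eq_zero h1 h2 t 0
    simp only [mul_zero, sub_zero] at h4
    rw [← h4]
    ring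
  have hc0 : c₁ = 0 := by
    have h1 := hψ1 0
    rw [hlin (0 + 1)] at h1
    have : c₁ * (0 + 1) = 0 := by linear_combination h1
    simpa using this
  have h1 := hψ2 0
  rw [hlin (0 + Complex.I), hc0] at h1
  have h2 : κ = 0 := by linear_combination -h1
  rw [hκ, neg_eq_zero] at h2
  have h3 : (C : ℂ) ≠ 0 := by exact_mod_cast hC0
  have h4 : (q : ℂ) ≠ 0 := by exact_mod_cast hqpos.ne'
  have h5 : (Real.pi : ℂ) ≠ 0 := by exact_mod_cast Real.pi_ne_zero
  have h6 : (2 * (Real.pi : ℂ) * Complex.I * C * q) ≠ 0 := by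
    refine mul_ne_zero (mul_ne_zero (mul_ne_zero (mul_ne_zero two_ne_zero h5) Complex.I_ne_zero)
      h3) h4
  exact h6 h2

/-- the zeroth coefficient does not vanish -/
theorem phi0_ne_zero (h : ER G) (hF : TubeForm G k β F) (hφ : FJD G F φ)
    {p : ℂ × (Fin r → ℂ)} (hp : p ∈ UP r) : φ 0 p ≠ 0 := by
  classical
  have h1 : ∃ C, ∃ p ∈ UP r, φ C p ≠ 0 := by
    by_contra hcon
    push Not at hcon
    obtain ⟨W, hW, hne⟩ := hF.nz
    apply hne
    have := hφ.sum W.2 W.1 hW.1 hW.2
    simp only [hcon _ _ hW.1, zero_mul] at this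
    exact this.unique hasSum_zero
  have hC : ∃ p ∈ UP r, φ (Nat.find h1) p ≠ 0 := Nat.find_spec h1
  have hC' : ∀ j < Nat.find h1, ∀ p ∈ UP r, φ j p = 0 := by
    intro j hj p hp
    by_contra hne
    exact Nat.find_min h1 hj ⟨p, hp, hne⟩
  have h0 := index_zero h hF hφ hC' hC
  have := leading_ne_zero h hF hφ hC' hC hp
  rwa [h0] at this

/-- the zeroth coefficient does not depend on `z` -/
theorem phi0_const (hF : TubeForm G k β F) (hφ : FJD G F φ) {τ : ℂ} (hτ : 0 < τ.im)
    (z : Fin r → ℂ) : φ 0 (τ, z) = φ 0 (τ, 0) := by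
  have hd : Differentiable ℂ fun z : Fin r → ℂ => φ 0 (τ, z) := by
    rw [← differentiableOn_univ]
    refine (hφ.holo 0).comp (t := UP r) (f := fun z : Fin r → ℂ => (τ, z)) ?_ fun t _ => hτ
    fun_prop
  obtain ⟨M, hM⟩ := bounded_of_periods hτ hd.continuous (fun z v => law_z hF hφ 0 z v hτ)
    (fun z v => by
      have := law_q hF hφ 0 z v hτ
      simpa [ee_zero] using this)
  apply hd.apply_eq_apply_of_bounded
  rw [isBounded_iff_forall_norm_le]
  exact ⟨M, by rintro _ ⟨z, rfl⟩; exact hM z⟩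

end

end Pool.Agent.Y813.LE
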