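import Pool.Agent.Y813.LE.Asy

set_option autoImplicit false
set_option linter.unusedSectionVars false

/-!
# Local comparability
-/

namespace Pool.Agent.Y813.LE

open Complex Set Finset Topology Pool.Agent.Y813.RL

noncomputable section

/-- two functions are locally comparable at `s` -/
def Cmp (a b : ℂ → ℝ) (s : ℂ) : Prop :=
  ∃ C : ℝ, 0 ≤ C ∧ ∀ᶠ t in 𝓝 s, 0 ≤ a t ∧ 0 ≤ b t ∧ a t ≤ C * b t ∧ b t ≤ C * a t

theorem Cmp.mul {a b a' b' : ℂ → ℝ} {s : ℂ} (h : Cmp a b s) (h' : Cmp a' b' s) :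
    Cmp (fun t => a t * a' t) (fun t => b t * b' t) s := by
  obtain ⟨C, hC, h⟩ := h
  obtain ⟨C', hC', h'⟩ := h'
  refine ⟨C * C', mul_nonneg hC hC', ?_⟩
  filter_upwards [h, h'] with t ⟨h1, h2, h3, h4⟩ ⟨h1', h2', h3', h4'⟩
  refine ⟨mul_nonneg h1 h1', mul_nonneg h2 h2', ?_, ?_⟩
  · calc a t * a' t ≤ (C * b t) * (C' * b' t) := mul_le_mul h3 h3' h1' (mul_nonneg hC h2)
      _ = C * C' * (b t * b' t) := by ring
  · calc b t * b' t ≤ (C * a t) * (C' * a' t) := mul_le_mul h4 h4' h2' (mul_nonneg hC h1)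
      _ = C * C' * (a t * a' t) := by ring

theorem Cmp.pow {a b : ℂ → ℝ} {s : ℂ} (h : Cmp a b s) (n : ℕ) :
    Cmp (fun t => a t ^ n) (fun t => b t ^ n) s := by
  obtain ⟨C, hC, h⟩ := h
  refine ⟨C ^ n, pow_nonneg hC n, ?_⟩
  filter_upwards [h] with t ⟨h1, h2, h3, h4⟩
  refine ⟨pow_nonneg h1 n, pow_nonneg h2 n, ?_, ?_⟩
  · rw [← mul_pow]; exact pow_le_pow_left₀ h1 h3 n
  · rw [← mul_pow]; exact pow_le_pow_left₀ h2 h4 n

theorem Cmp.of_cont {a b : ℂ → ℝ} {s : ℂ} (ha : ContinuousAt a s) (hb : ContinuousAt b s)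
    (ha0 : 0 < a s) (hb0 : 0 < b s) : Cmp a b s := by
  refine ⟨max (2 * a s / (b s / 2)) (2 * b s / (a s / 2)), by positivity, ?_⟩
  have e1 := ha.eventually (gt_mem_nhds (show a s < 2 * a s by linarith))
  have e2 := ha.eventually (lt_mem_nhds (show a s / 2 < a s by linarith))
  have e3 := hb.eventually (gt_mem_nhds (show b s < 2 * b s by linarith))
  have e4 := hb.eventually (lt_mem_nhds (show b s / 2 < b s by linarith))
  filter_upwards [e1, e2, e3, e4] with t h1 h2 h3 h4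
  have hat : 0 < a t := lt_trans (by positivity) h2
  have hbt : 0 < b t := lt_trans (by positivity) h4
  refine ⟨hat.le, hbt.le, ?_, ?_⟩
  · calc a t ≤ 2 * a s := h1.le
      _ = 2 * a s / (b s / 2) * (b s / 2) := by field_simp
      _ ≤ max (2 * a s / (b s / 2)) (2 * b s / (a s / 2)) * b t :=
          mul_le_mul (le_max_left _ _) h4.le (by positivity) (by positivity)
  · calc b t ≤ 2 * b s := h3.le
      _ = 2 * b s / (a s / 2) * (a s / 2) := by field_simp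
      _ ≤ max (2 * a s / (b s / 2)) (2 * b s / (a s / 2)) * a t :=
          mul_le_mul (le_max_right _ _) h2.le (by positivity) (by positivity)

theorem Cmp.congr {a b a' b' : ℂ → ℝ} {s : ℂ} (h : Cmp a b s) (h1 : ∀ᶠ t in 𝓝 s, a' t = a t)
    (h2 : ∀ᶠ t in 𝓝 s, b' t = b t) : Cmp a' b' s := by
  obtain ⟨C, hC, h⟩ := h
  refine ⟨C, hC, ?_⟩
  filter_upwards [h, h1, h2] with t ht e1 e2
  rwa [e1, e2]

/-- `w` and `1 - e(w)` are comparable near a zero of `w` -/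
theorem Cmp.exp {w : ℂ → ℂ} {s : ℂ} (hw : ContinuousAt w s) (h0 : w s = 0) :
    Cmp (fun t => ‖w t‖) (fun t => ‖1 - ee (w t)‖) s := by
  have hpi := Real.pi_gt_three
  have hpi4 := Real.pi_le_four
  refine ⟨16, by norm_num, ?_⟩
  have hsmall : ∀ᶠ t in 𝓝 s, ‖w t‖ < 1 / 16 := by
    have := hw.norm
    have h1 : ‖w s‖ < 1 / 16 := by rw [h0]; simp
    exact this.eventually (gt_mem_nhds h1)
  filter_upwards [hsmall] with t ht
  set x : ℂ := 2 * Real.pi * Complex.I * w t with hx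
  have hxn : ‖x‖ = 2 * Real.pi * ‖w t‖ := by
    rw [hx, norm_mul, norm_mul, norm_mul, Complex.norm_I, mul_one, Complex.norm_real,
      Real.norm_eq_abs, abs_of_pos Real.pi_pos]
    simp
  have hx1 : ‖x‖ ≤ 1 / 2 := by
    rw [hxn]
    nlinarith [norm_nonneg (w t)]
  have h1 := Complex.norm_exp_sub_one_sub_id_le (x := x) (by linarith)
  have he : ee (w t) = Complex.exp x := rfl
  rw [he]
  have h2 : ‖(1 : ℂ) - Complex.exp x‖ ≤ ‖x‖ + ‖Complex.exp x - 1 - x‖ := by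
    have : (1 : ℂ) - Complex.exp x = -(x + (Complex.exp x - 1 - x)) := by ring
    rw [this, norm_neg]
    exact norm_add_le _ _
  have h3 : ‖x‖ ≤ ‖(1 : ℂ) - Complex.exp x‖ + ‖Complex.exp x - 1 - x‖ := by
    have : x = -((1 : ℂ) - Complex.exp x) - (Complex.exp x - 1 - x) := by ring
    calc ‖x‖ = ‖-((1 : ℂ) - Complex.exp x) - (Complex.exp x - 1 - x)‖ := by rw [← this]
      _ ≤ ‖-((1 : ℂ) - Complex.exp x)‖ + _ := norm_sub_le _ _
      _ = _ := by rw [norm_neg]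
  have h4 : ‖x‖ ^ 2 ≤ ‖x‖ / 2 := by nlinarith [norm_nonneg x]
  refine ⟨norm_nonneg _, norm_nonneg _, ?_, ?_⟩
  · have : ‖w t‖ ≤ ‖x‖ := by
      rw [hxn]
      nlinarith [norm_nonneg (w t)]
    nlinarith [norm_nonneg x, norm_nonneg ((1 : ℂ) - Complex.exp x)]
  · have : ‖(1 : ℂ) - Complex.exp x‖ ≤ 3 / 2 * ‖x‖ := by linarith
    rw [hxn] at this
    nlinarith [norm_nonneg (w t)]

/-- a local inverse of `ee` -/
theorem local_inv {s ω₀ : ℂ} (hs : ee ω₀ = s) : ∃ ω : ℂ → ℂ, ContinuousAt ω s ∧ ω s = ω₀ ∧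
    ∀ᶠ t in 𝓝 s, ee (ω t) = t := by
  have hs0 : s ≠ 0 := by rw [← hs]; exact ee_ne_zero _
  refine ⟨fun t => ω₀ + Complex.log (t / s) / (2 * Real.pi * Complex.I), ?_, ?_, ?_⟩
  · refine ContinuousAt.add continuousAt_const (ContinuousAt.div_const ?_ _)
    refine ContinuousAt.clog (by fun_prop) ?_
    rw [div_self hs0]
    exact Complex.one_mem_slitPlane
  · simp only
    rw [div_self hs0, Complex.log_one, zero_div, add_zero]
  · have : ∀ᶠ t in 𝓝 s, t ≠ 0 := (continuousAt_id.eventually_ne hs0)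
    filter_upwards [this] with t ht
    rw [ee_add, hs]
    unfold ee
    rw [mul_div_cancel₀ _ Complex.two_pi_I_ne_zero, Complex.exp_log (div_ne_zero ht hs0)]
    field_simp

end

end Pool.Agent.Y813.LE
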