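import Pool.Agent.Y813.RL.Defs

set_option autoImplicit false

/-!
# Modular forms with complete 2-divisor: definitions
-/

namespace Pool.Agent.Y813.Lee

open Pool.Agent.Y813.Refl (form quadric act discKernel gramUU)

noncomputable section

/-- The Gram matrix of `M = 2U + L(-1)`, where `G` is a Gram matrix of `L`. -/
def gramM {r : ℕ} (G : Matrix (Fin r) (Fin r) ℤ) : Matrix (Fin 4 ⊕ Fin r) (Fin 4 ⊕ Fin r) ℤ :=
  Matrix.fromBlocks gramUU 0 0 (-G)

/-- A modular form of weight `k` and character `χ` for the discriminant kernel of the lattice with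
Gram matrix `B`: a holomorphic function on the affine cone `A`, homogeneous of degree `-k` and
transforming with the character `χ`. -/
structure IsModularForm {ι : Type} [Fintype ι] [DecidableEq ι] (B : Matrix ι ι ℤ)
    (A : Set (ι → ℂ)) (k : ℤ) (χ : discKernel B A →* ℂˣ) (F : (ι → ℂ) → ℂ) : Prop where
  holo : DifferentiableOn ℂ F A
  homog : ∀ Z ∈ A, ∀ t : ℂ, t ≠ 0 → F (fun i => t * Z i) = t ^ (-k) * F Z
  equi : ∀ g : discKernel B A, ∀ Z ∈ A, F (act g.1.val Z) = (χ g : ℂ) * F Z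

/-- The divisor of `F` on `A` is the sum of the mirrors of all vectors of norm `-2` (modulo
signs), each with multiplicity one: locally at every point `Z₀` of `A`, `F` is the product of a
holomorphic function without zeros and of the linear forms `(v, Z)`, where `v` runs over a set of
representatives modulo signs of the vectors of norm `-2` orthogonal to `Z₀`. -/
def HasCompleteTwoDivisor {ι : Type} [Fintype ι] (B : Matrix ι ι ℤ) (A : Set (ι → ℂ))
    (F : (ι → ℂ) → ℂ) : Prop :=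
  ∀ Z₀ ∈ A, ∃ (S : Finset (ι → ℤ)) (U : Set (ι → ℂ)) (u : (ι → ℂ) → ℂ),
    (∀ v ∈ S, form B v v = -2 ∧ form B (fun i => (v i : ℂ)) Z₀ = 0) ∧
    (∀ v : ι → ℤ, form B v v = -2 → form B (fun i => (v i : ℂ)) Z₀ = 0 → (v ∈ S ↔ -v ∉ S)) ∧
    IsOpen U ∧ Z₀ ∈ U ∧ DifferentiableOn ℂ u (U ∩ A) ∧ (∀ Z ∈ U ∩ A, u Z ≠ 0) ∧
    ∀ Z ∈ U ∩ A, F Z = u Z * ∏ v ∈ S, form B (fun i => (v i : ℂ)) Z

end

end Pool.Agent.Y813.Lee
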