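import Pool.Agent.Y813.LE.Defs

set_option autoImplicit false

/-!
# The Leech lattice, primitive sublattices and the condition `Norm_2`
-/

namespace Pool.Agent.Y813.Lee

open Pool.Agent.Y813.Refl (form)

/-- The lattice with Gram matrix `N` is the Leech lattice: the even unimodular positive definite
lattice of rank 24 without vectors of norm 2. -/
structure IsLeechLattice (N : Matrix (Fin 24) (Fin 24) ℤ) : Prop where
  symm : N.IsSymm
  even : ∀ i, Even (N i i)
  pos : ∀ x : Fin 24 → ℝ, x ≠ 0 → 0 < form N x x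
  unimodular : N.det = 1
  no_root : ∀ v : Fin 24 → ℤ, form N v v ≠ 2

/-- The lattice with Gram matrix `G` is isometric to a primitive sublattice of the lattice with
Gram matrix `N`: the columns of `P` span a sublattice with Gram matrix `G`, and every `w` with a
nonzero multiple in this sublattice lies in it. -/
def IsPrimitiveSublattice {r : ℕ} (G : Matrix (Fin r) (Fin r) ℤ)
    (N : Matrix (Fin 24) (Fin 24) ℤ) : Prop :=
  ∃ P : Matrix (Fin 24) (Fin r) ℤ, P.transpose * N * P = G ∧
    ∀ (d : ℤ) (w : Fin 24 → ℤ) (v : Fin r → ℤ), d ≠ 0 → (∀ i, d * w i = P.mulVec v i) →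
      ∃ v' : Fin r → ℤ, w = P.mulVec v'

/-- The condition `Norm_2`: every class of the discriminant group contains a vector `h` with
`0 ≤ (h, h) ≤ 2`. -/
def SatisfiesNorm2 {r : ℕ} (G : Matrix (Fin r) (Fin r) ℤ) : Prop :=
  ∀ x : Fin r → ℚ, (∀ y : Fin r → ℤ, ∃ m : ℤ, form G x (fun i => (y i : ℚ)) = m) →
    ∃ v : Fin r → ℤ, 0 ≤ form G (fun i => x i - v i) (fun i => x i - v i) ∧
      form G (fun i => x i - v i) (fun i => x i - v i) ≤ 2

end Pool.Agent.Y813.Lee
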