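import Pool.Agent.Y813.LE.Bnd
import Pool.Agent.Y813.RL.Exp

set_option autoImplicit false
set_option linter.unusedSectionVars false

/-!
# The Fourier-Jacobi expansion
-/

namespace Pool.Agent.Y813.LE

open Complex Set Finset Pool.Agent.Y813.RL

noncomputable section

variable {r : ℕ} [NeZero r]

variable {G : Matrix (Fin r) (Fin r) ℤ}

/-- the properties of the Fourier-Jacobi coefficients -/
structure FJD (G : Matrix (Fin r) (Fin r) ℤ) (F : (TP r) → ℂ) (φ : ℕ → ℂ × (Fin r → ℂ) → ℂ) :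
    Prop where
  holo : ∀ j, DifferentiableOn ℂ (φ j) (UP r)
  coeff : ∀ (j : ℕ) (p : ℂ × (Fin r → ℂ)) (v : ℝ), p ∈ (UP r) → bh G p < v →
    φ j p = ∫ u in (0 : ℝ)..1, F ((u : ℂ) + (v : ℂ) * Complex.I, p) *
      ee (-(j * ((u : ℂ) + (v : ℂ) * Complex.I)))
  sum : ∀ (p : ℂ × (Fin r → ℂ)) (ω : ℂ), p ∈ (UP r) → bh G p < ω.im →
    HasSum (fun j : ℕ => φ j p * ee (j * ω)) (F (ω, p))
  law : ∀ (p p' : ℂ × (Fin r → ℂ)) (κ c : ℂ), p ∈ (UP r) → p' ∈ (UP r) →
    (∀ ω : ℂ, bh G p < ω.im → bh G p' < (ω + κ).im → F (ω + κ, p') = c * F (ω, p)) →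
    ∀ j : ℕ, φ j p' = c * ee (-(j * κ)) * φ j p

theorem isOpen_UP : IsOpen (UP r) := isOpen_lt continuous_const (by fun_prop)

theorem convex_UP : Convex ℝ (UP r) := by
  intro p hp q hq a b ha hb hab
  simp only [UP, Set.mem_ofPred_eq] at *
  have : (a • p + b • q).1.im = a * p.1.im + b * q.1.im := by simp
  rw [this]
  rcases eq_or_lt_of_le ha with ha0 | ha0
  · have : b = 1 := by linarith
    rw [← ha0, this]
    simpa using hq
  · have := mul_pos ha0 hp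
    have := mul_nonneg hb hq.le
    linarith

theorem continuousOn_bh : ContinuousOn (bh G) (UP r) := by
  unfold bh
  have h1 : Continuous fun p : ℂ × (Fin r → ℂ) => imv p.2 := by
    unfold imv
    fun_prop
  have h2 : Continuous fun p : ℂ × (Fin r → ℂ) => bf G (imv p.2) (imv p.2) := bf_contR G h1 h1
  refine h2.continuousOn.div (by fun_prop) ?_
  intro p hp
  have : 0 < p.1.im := hp
  positivity

theorem mem_Hd_iff {ω : ℂ} {p : ℂ × (Fin r → ℂ)} : (ω, p) ∈ Hd G ↔ p ∈ (UP r) ∧ bh G p < ω.im :=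
  Iff.rfl

theorem exists_FJD (hFJ : JobFJ) (hKD : JobKD) (h : PosD G) {k : ℤ} {β : ℕ} {F : (TP r) → ℂ}
    (hF : TubeForm G k β F) : ∃ φ, FJD G F φ := by
  have := hFJ (ℂ × (Fin r → ℂ)) (UP r) (bh G) F isOpen_UP continuousOn_bh hF.holo
    (fun ω p hp hω => by
      have := hF.tr (ω, p) ⟨hp, hω⟩ 1 0 0
      simpa using this)
    (fun p hp => by
      have hp' : 0 < p.1.im := hp
      obtain ⟨M, hM⟩ := bound_omega hKD h hF (bh G p + 1, (p.1.im, imv p.2)) hp' (by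
        simp only [kf, bh]
        field_simp
        ring_nf
        positivity)
      exact ⟨M, fun ω hω => hM (ω, p) rfl hω⟩)
  exact ⟨fj (bh G) F, this.1, this.2.1, this.2.2.1, this.2.2.2⟩

section laws

variable {k : ℤ} {β : ℕ} {F : (TP r) → ℂ} {φ : ℕ → ℂ × (Fin r → ℂ) → ℂ}

theorem law_T (hF : TubeForm G k β F) (hφ : FJD G F φ) (j : ℕ) {τ : ℂ} (z : Fin r → ℂ)
    (hτ : 0 < τ.im) : φ j (τ + 1, z) = φ j (τ, z) := by
  have := hφ.law (τ, z) (τ + 1, z) 0 1 hτ (by simpa [UP] using hτ) (by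
    intro ω h1 _
    have := hF.tr (ω, (τ, z)) ⟨hτ, h1⟩ 0 1 0
    simpa using this) j
  simpa [ee] using this

theorem law_z (hF : TubeForm G k β F) (hφ : FJD G F φ) (j : ℕ) {τ : ℂ} (z : Fin r → ℂ)
    (v : Fin r → ℤ) (hτ : 0 < τ.im) : φ j (τ, fun i => z i + (v i : ℂ)) = φ j (τ, z) := by
  have := hφ.law (τ, z) (τ, fun i => z i + (v i : ℂ)) 0 1 hτ hτ (by
    intro ω h1 _
    have := hF.tr (ω, (τ, z)) ⟨hτ, h1⟩ 0 0 v
    simpa using this) j
  simpa [ee] using this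

theorem law_q (hF : TubeForm G k β F) (hφ : FJD G F φ) (j : ℕ) {τ : ℂ} (z : Fin r → ℂ)
    (v : Fin r → ℤ) (hτ : 0 < τ.im) : φ j (τ, fun i => z i + τ * (v i : ℂ)) =
      ee (-(j * (bf G (fun i => (v i : ℂ)) z +
        bf G (fun i => (v i : ℂ)) (fun i => (v i : ℂ)) / 2 * τ))) * φ j (τ, z) := by
  have hb0 : ∀ w : Fin r → ℂ, bf G (fun _ => 0) w = 0 := bf_zero_left G
  have hbz : ∀ w : Fin r → ℤ, bf G 0 w = 0 := bf_zero_left G
  have hbz' : ∀ w : Fin r → ℤ, bf G w 0 = 0 := bf_zero_right G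
  have := hφ.law (τ, z) (τ, fun i => z i + τ * (v i : ℂ))
    (bf G (fun i => (v i : ℂ)) z + bf G (fun i => (v i : ℂ)) (fun i => (v i : ℂ)) / 2 * τ) 1
    hτ hτ (by
    intro ω h1 _
    have := hF.ei (ω, (τ, z)) ⟨hτ, h1⟩ e1K (0, (0, v)) e1_e1 (by
      simp [kf, e1K, hbz])
    rw [one_mul, ← this]
    congr 1
    refine Prod.ext ?_ (Prod.ext ?_ ?_)
    · simp [kf, cK, e1K, hb0, bf_intCast]
      ring
    · simp [kf, cK, e1K, hb0]
    · funext i
      simp [kf, cK, e1K, hb0]) j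
  rw [this, one_mul]

theorem law_S (hF : TubeForm G k β F) (hφ : FJD G F φ) (j : ℕ) {τ : ℂ} (z : Fin r → ℂ)
    (hτ : 0 < τ.im) : φ j (-1 / τ, fun i => z i / τ) =
      τ ^ k * ee (-(j * (-(bf G z z / (2 * τ))))) * φ j (τ, z) := by
  have hτ' : 0 < (-1 / τ).im := by
    rw [neg_div, Complex.neg_im, one_div, Complex.inv_im]
    have : 0 < Complex.normSq τ := Complex.normSq_pos.2 (by
      intro h0
      rw [h0] at hτ
      simp at hτ)
    have := div_pos hτ this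
    linarith [neg_div (Complex.normSq τ) τ.im]
  exact hφ.law (τ, z) (-1 / τ, fun i => z i / τ) (-(bf G z z / (2 * τ))) (τ ^ k) hτ hτ' (by
    intro ω h1 _
    have := hF.S (ω, (τ, z)) ⟨hτ, h1⟩
    simpa [sub_eq_add_neg] using this) j

end laws

end

end Pool.Agent.Y813.LE
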