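import Pool.Agent.Y813.LE.Tube4

set_option autoImplicit false

/-!
# Intermediate statements (analytic part) for MP_ccc26a_nt
-/

namespace Pool.Agent.Y813.LE

open Complex Set Topology Pool.Agent.Y813.RL
open Pool.Agent.Y813.Lee (gramM IsModularForm HasCompleteTwoDivisor)
open Pool.Agent.Y813.Refl (form quadric act discKernel)

noncomputable section

/-- the vector of `M` with the given component in `K = U + L(-1)` -/
def kM {r : ℕ} (e : ℤ × (ℤ × (Fin r → ℤ))) : Fin 4 ⊕ Fin r → ℤ := mk 0 0 e.1 e.2.1 e.2.2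

/-- CHAR: characters of the discriminant kernel have order dividing 12 on the elements that we
need. -/
def JobChar : Prop := ∀ (r : ℕ) (G : Matrix (Fin r) (Fin r) ℤ), PosD G → (∀ i, Even (G i i)) →
  ∀ (χ : discKernel (gramM G) (coneM G) →* ℂˣ) (g : discKernel (gramM G) (coneM G)),
    ((∃ (a : ℤ × (ℤ × (Fin r → ℤ))) (N : ℤ), kf G a a = 2 * N ∧
        g.1.val = tvM (gramM G) (mk 0 1 0 0 0) (kM a) N) ∨
      (∃ (e a : ℤ × (ℤ × (Fin r → ℤ))) (N : ℤ), kf G e e = 0 ∧ kf G e a = 0 ∧ kf G a a = 2 * N ∧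
        g.1.val = tvM (gramM G) (kM e) (kM a) N) ∨
      g.1.val = blk PS ∨ g.1.val = blk PW ∨
      (∃ e : ℤ × (ℤ × (Fin r → ℤ)), kf G e e = -2 ∧
        ∀ x : Fin 4 ⊕ Fin r → ℤ, act g.1.val x = x + bf (gramM G) (kM e) x • kM e)) →
    χ g ^ 12 = 1

/-- TUBE: from forms on the cone to forms on the tube domain. -/
def JobTube : Prop := ∀ (r : ℕ) (G : Matrix (Fin r) (Fin r) ℤ), ER G → ∀ (k : ℤ)
  (χ : discKernel (gramM G) (coneM G) →* ℂˣ) (F₀ : (Fin 4 ⊕ Fin r → ℂ) → ℂ),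
  IsModularForm (gramM G) (coneM G) k χ F₀ → HasCompleteTwoDivisor (gramM G) (coneM G) F₀ →
    TubeForm G (12 * k) 12 (fun W => F₀ (ZW G W) ^ 12)

/-- COMP: independence of the component. -/
def JobComp : Prop := ∀ (r : ℕ) (G : Matrix (Fin r) (Fin r) ℤ), PosD G →
  ∀ (Z₀ : Fin 4 ⊕ Fin r → ℂ), Z₀ ∈ quadric (gramM G) →
  (∃ (k : ℤ) (χ : discKernel (gramM G) (connectedComponentIn (quadric (gramM G)) Z₀) →* ℂˣ)
    (F : (Fin 4 ⊕ Fin r → ℂ) → ℂ),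
    IsModularForm (gramM G) (connectedComponentIn (quadric (gramM G)) Z₀) k χ F ∧
    HasCompleteTwoDivisor (gramM G) (connectedComponentIn (quadric (gramM G)) Z₀) F) →
  ∃ (k : ℤ) (χ : discKernel (gramM G) (coneM G) →* ℂˣ) (F : (Fin 4 ⊕ Fin r → ℂ) → ℂ),
    IsModularForm (gramM G) (coneM G) k χ F ∧ HasCompleteTwoDivisor (gramM G) (coneM G) F

/-- SLICE: zero counting on a disc in one variable. -/
def JobSlice : Prop := ∀ (R R' K : ℝ) (β m : ℕ) (ζ : ℂ) (g : ℂ → ℂ), 0 < R → R < R' → 0 ≤ K →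
  0 < m → DifferentiableOn ℂ g (Metric.ball 0 R') → g 0 = 1 →
  (∀ s ∈ Metric.ball (0 : ℂ) R', ‖g s‖ ≤ Real.exp K) → 2 ≤ ‖ζ‖ * R ^ m →
  (∀ s ∈ Metric.ball (0 : ℂ) R', ∃ C : ℝ, ∀ᶠ t in 𝓝 s, ‖g t‖ ≤ C * ‖1 - ζ * t ^ m‖ ^ β ∧
    ‖1 - ζ * t ^ m‖ ^ β ≤ C * ‖g t‖) →
  ∀ s : ℂ, ‖s‖ ≤ R / 2 → 1 - ζ * s ^ m ≠ 0 →
    |Real.log ‖g s‖ - β * Real.log ‖1 - ζ * s ^ m‖| ≤ 4 * K * ‖s‖ / R

/-- the height of the wall `M ω + n τ + (v, z) = 0` over `x` -/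
def hgt {r : ℕ} (G : Matrix (Fin r) (Fin r) ℤ) (M n : ℤ) (v : Fin r → ℤ) (x : Fin r → ℝ) : ℝ :=
  -((n : ℝ) + bf G (fun i => (v i : ℝ)) x) / M

/-- the wall `(M, n, v)` is the top wall over a neighbourhood of `x` -/
def IsTop {r : ℕ} (G : Matrix (Fin r) (Fin r) ℤ) (M n : ℤ) (v : Fin r → ℤ) (x : Fin r → ℝ) :
    Prop :=
  0 < M ∧ bf G v v - 2 * (M * n) = 2 ∧ ∃ δ ρ : ℝ, 0 < δ ∧ 0 < ρ ∧
    ∀ x' : Fin r → ℝ, (∀ i, |x' i - x i| < ρ) →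
      bf G x' x' / 2 + δ ≤ hgt G M n v x' ∧
      ∀ (M' n' : ℤ) (v' : Fin r → ℤ), 0 < M' → bf G v' v' - 2 * (M' * n') = 2 →
        ¬(M' = M ∧ n' = n ∧ v' = v) → hgt G M' n' v' x' + δ ≤ hgt G M n v x'

/-- GEO: if the covering radius is larger than `sqrt 2` there is a rational point whose top wall
has `M ≥ 2`. -/
def JobGeo : Prop := ∀ (r : ℕ) (G : Matrix (Fin r) (Fin r) ℤ), ER G → ¬ Cov G →
  ∃ (X : Fin r → ℤ) (N : ℕ) (M n : ℤ) (v : Fin r → ℤ), 0 < N ∧ 2 ≤ M ∧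
    IsTop G M n v (fun i => (X i : ℝ) / N)

/-- GEO0: the top wall over the origin. -/
def JobGeo0 : Prop := ∀ (r : ℕ) (G : Matrix (Fin r) (Fin r) ℤ), ER G →
  IsTop G 1 (-1) 0 (fun _ => 0)

end

end Pool.Agent.Y813.LE
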