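import Pool.Agent.Y813.LE.Cmp
import Pool.Agent.Y813.LE.Stm2
import Pool.Agent.Y813.RL.Jac

set_option autoImplicit false
set_option linter.unusedSectionVars false

/-!
# Slices over imaginary points
-/

namespace Pool.Agent.Y813.LE

open Complex Set Finset Topology Pool.Agent.Y813.RL

noncomputable section

variable {r : ℕ} [NeZero r] {G : Matrix (Fin r) (Fin r) ℤ}

/-- the point `(iT, iTx)` -/
def pT (x : Fin r → ℝ) (T : ℝ) : ℂ × (Fin r → ℂ) :=
  ((T : ℂ) * Complex.I, fun i => ((T * x i : ℝ) : ℂ) * Complex.I)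

theorem pT_im (x : Fin r → ℝ) (T : ℝ) : (pT x T).1.im = T := by simp [pT]

theorem imv_pT (x : Fin r → ℝ) (T : ℝ) : imv (pT x T).2 = T • x := by
  funext i
  simp [imv, pT]

theorem pT_mem (x : Fin r → ℝ) {T : ℝ} (hT : 0 < T) : pT x T ∈ UP r := by
  show 0 < (pT x T).1.im
  rwa [pT_im]

theorem xp_pT (x : Fin r → ℝ) {T : ℝ} (hT : 0 < T) : xp (pT x T) = x := by
  unfold xp
  rw [imv_pT, pT_im, smul_smul, inv_mul_cancel₀ hT.ne', one_smul]

theorem bh_pT (x : Fin r → ℝ) {T : ℝ} (hT : 0 < T) : bh G (pT x T) = T * (bf G x x / 2) := by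
  rw [bh_eq (pT_mem x hT), xp_pT x hT, pT_im]

theorem WL_pT (b m n : ℤ) (v : Fin r → ℤ) (x : Fin r → ℝ) (T : ℝ) (ω : ℂ) :
    WL G 0 b m n v (ω, pT x T) =
      b + m * ω + ((T * ((n : ℝ) + bf G (vr v) x) : ℝ) : ℂ) * Complex.I := by
  unfold WL
  have h1 : bf G (fun i => (v i : ℂ)) (pT x T).2 = ((T * bf G (vr v) x : ℝ) : ℂ) * Complex.I := by
    have e : (pT x T).2 = Complex.I • fun i => (((T • x) i : ℝ) : ℂ) := by
      funext i
      simp [pT]
      ring
    have e2 : (fun i => (v i : ℂ)) = fun i => ((vr v i : ℝ) : ℂ) := by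
      funext i
      simp [vr]
    rw [e, e2, bf_smul_right, bf_ofReal, bf_smul_right]
    ring
  simp only
  rw [h1]
  have h2 : (pT x T).1 = (T : ℂ) * Complex.I := rfl
  rw [h2]
  push_cast
  ring

/-- the normalised slice function -/
def gs (φ : ℕ → ℂ × (Fin r → ℂ) → ℂ) (p : ℂ × (Fin r → ℂ)) (s : ℂ) : ℂ :=
  (∑' j : ℕ, φ j p * s ^ j) / φ 0 p

variable {k : ℤ} {β : ℕ} {F : TP r → ℂ} {φ : ℕ → ℂ × (Fin r → ℂ) → ℂ}

theorem gs_zero {p : ℂ × (Fin r → ℂ)} (h0 : φ 0 p ≠ 0) : gs φ p 0 = 1 := by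
  unfold gs
  rw [tsum_eq_single 0]
  · simp [h0]
  · intro i hi
    simp [hi]

theorem gs_sum (hφ : FJD G F φ) {p : ℂ × (Fin r → ℂ)} (hp : p ∈ UP r) {ω : ℂ}
    (hω : bh G p < ω.im) : HasSum (fun j : ℕ => φ j p * ee ω ^ j) (F (ω, p)) := by
  have := hφ.sum p ω hp hω
  simpa only [ee_pow] using this

theorem gs_eq (hφ : FJD G F φ) {p : ℂ × (Fin r → ℂ)} (hp : p ∈ UP r) {ω : ℂ}
    (hω : bh G p < ω.im) : gs φ p (ee ω) = F (ω, p) / φ 0 p := by
  unfold gs
  rw [(gs_sum hφ hp hω).tsum_eq]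

theorem gs_diff (hφ : FJD G F φ) {p : ℂ × (Fin r → ℂ)} (hp : p ∈ UP r) :
    DifferentiableOn ℂ (gs φ p) (Metric.ball 0 (Real.exp (-(2 * Real.pi * bh G p)))) := by
  have : DifferentiableOn ℂ (fun s => ∑' j : ℕ, φ j p * s ^ j)
      (Metric.ball 0 (Real.exp (-(2 * Real.pi * bh G p)))) := by
    apply summable_diff
    intro s hs hsR
    obtain ⟨ω, hω, him⟩ := exists_ee hs
    have h1 : bh G p < ω.im := by
      rw [him, lt_div_iff₀ (by positivity)]
      have := Real.log_lt_log (norm_pos_iff.2 hs) hsR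
      rw [Real.log_exp] at this
      linarith
    rw [← hω]
    exact (gs_sum hφ hp h1).summable
  exact this.div_const _

/-- the wall `(M, n, v)` is strictly the top wall over `x` -/
structure TopAt (G : Matrix (Fin r) (Fin r) ℤ) (M n : ℤ) (v : Fin r → ℤ) (x : Fin r → ℝ)
    (δ : ℝ) : Prop where
  hm : 0 < M
  hn : bf G v v - 2 * (M * n) = 2
  hδ : 0 < δ
  par : bf G x x / 2 + δ ≤ hgt G M n v x
  oth : ∀ (M' n' : ℤ) (v' : Fin r → ℤ), 0 < M' → bf G v' v' - 2 * (M' * n') = 2 →
    ¬(M' = M ∧ n' = n ∧ v' = v) → hgt G M' n' v' x + δ ≤ hgt G M n v x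

variable {M n : ℤ} {v : Fin r → ℤ} {x : Fin r → ℝ} {δ : ℝ}

theorem wall_hgt (h : PosD G) {b m' n' : ℤ} {v' : Fin r → ℤ} {T : ℝ} (hT : 0 < T) {ω : ℂ}
    (hm' : 0 < m') (hW : WL G 0 b m' n' v' (ω, pT x T) = 0) : ω.im / T = hgt G m' n' v' x := by
  have h1 := height_eq h (W := (ω, pT x T)) (by simp only; rw [pT_im]; exact hT) hW
  simp only [xp_pT x hT, pT_im] at h1
  exact hgt_eq m' n' v' x _ hm' h1

theorem wall_unique (h : PosD G) (ht : TopAt G M n v x δ) {b m' n' : ℤ} {v' : Fin r → ℤ} {T : ℝ}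
    (hT : 0 < T) {ω : ℂ} (hω : T * (hgt G M n v x - 3 * δ / 4) < ω.im)
    (hm' : 0 < m') (hn' : bf G v' v' - 2 * (m' * n') = 2)
    (hW : WL G 0 b m' n' v' (ω, pT x T) = 0) : m' = M ∧ n' = n ∧ v' = v := by
  by_contra hcon
  have h1 := wall_hgt h hT hm' hW
  have h2 := ht.oth m' n' v' hm' hn' hcon
  rw [← h1] at h2
  have h3 : hgt G M n v x - 3 * δ / 4 < ω.im / T := by
    rw [lt_div_iff₀ hT]
    linarith
  have := ht.hδ
  linarith

theorem mem_slice (h : PosD G) (ht : TopAt G M n v x δ) {T : ℝ}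
    (hT : 0 < T) {ω : ℂ} (hω : T * (hgt G M n v x - 3 * δ / 4) < ω.im) :
    bh G (pT x T) < ω.im ∧ (ω, pT x T) ∈ Hd G := by
  have h1 : bh G (pT x T) < ω.im := by
    rw [bh_pT x hT]
    have := ht.par
    have := ht.hδ
    nlinarith
  exact ⟨h1, pT_mem x hT, h1⟩

theorem ht_slice (h : PosD G) (ht : TopAt G M n v x δ) {T : ℝ}
    (hT : 0 < T) (hT2 : 1 < T ^ 2 * (δ / 4)) {ω : ℂ}
    (hω : T * (hgt G M n v x - 3 * δ / 4) < ω.im) :
    1 < (ω, pT x T).2.1.im ^ 2 * LE.ht G (ω, pT x T) := by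
  have e1 : (ω, pT x T).2.1.im = T := pT_im x T
  have e2 : LE.ht G (ω, pT x T) = ω.im / T - bf G x x / 2 := by
    unfold LE.ht
    simp only [xp_pT x hT, pT_im]
  rw [e1, e2]
  have h3 : hgt G M n v x - 3 * δ / 4 < ω.im / T := by
    rw [lt_div_iff₀ hT]
    linarith
  have h4 := ht.par
  have h5 : δ / 4 < ω.im / T - bf G x x / 2 := by linarith
  have : 0 < T ^ 2 := by positivity
  nlinarith

/-- the factor `zeta` -/
def zt (G : Matrix (Fin r) (Fin r) ℤ) (M n : ℤ) (v : Fin r → ℤ) (x : Fin r → ℝ) (T : ℝ) : ℂ :=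
  ((Real.exp (2 * Real.pi * T * M * hgt G M n v x) : ℝ) : ℂ)

theorem ee_WL (hM : 0 < M) (b : ℤ) (T : ℝ) (ω : ℂ) :
    ee (WL G 0 b M n v (ω, pT x T)) = zt G M n v x T * ee ω ^ M.toNat := by
  have hMR : (0 : ℝ) < M := by exact_mod_cast hM
  rw [WL_pT, ee_add, ee_add, ee_int, one_mul]
  have e1 : ee ((M : ℂ) * ω) = ee ω ^ M.toNat := by
    rw [← ee_pow]
    congr 1
    have : ((M.toNat : ℕ) : ℂ) = (M : ℂ) := by
      have : ((M.toNat : ℕ) : ℤ) = M := Int.toNat_of_nonneg hM.le
      exact_mod_cast congrArg (fun z : ℤ => (z : ℂ)) this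
    rw [this]
  have e2 : ee (((T * ((n : ℝ) + bf G (vr v) x) : ℝ) : ℂ) * Complex.I) = zt G M n v x T := by
    unfold ee zt
    rw [Complex.ofReal_exp]
    congr 1
    have : 2 * Real.pi * T * M * hgt G M n v x = -(2 * Real.pi * (T * ((n : ℝ) + bf G (vr v) x))) := by
      unfold hgt
      have e : (fun i => (v i : ℝ)) = vr v := rfl
      rw [e]
      field_simp
    rw [this]
    push_cast
    have hI : Complex.I * Complex.I = -1 := Complex.I_mul_I
    linear_combination (2 * (Real.pi : ℂ) * (T * ((n : ℂ) + (bf G (vr v) x : ℝ)))) * hI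
  rw [e1, e2]
  ring

/-- **local comparability on the slice** -/
theorem cmp_slice (h : ER G) (hF : TubeForm G k β F) (hφ : FJD G F φ)
    (ht : TopAt G M n v x δ) {T : ℝ} (hT : 0 < T) (hT2 : 1 < T ^ 2 * (δ / 4)) {s : ℂ}
    (hs : ‖s‖ < Real.exp (-(2 * Real.pi * (T * (hgt G M n v x - 3 * δ / 4))))) :
    Cmp (fun t => ‖gs φ (pT x T) t‖) (fun t => ‖1 - zt G M n v x T * t ^ M.toNat‖ ^ β) s := by
  have hpi := Real.pi_pos
  set p := pT x T with hp
  have hpU : p ∈ UP r := pT_mem x hT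
  have h0 : φ 0 p ≠ 0 := phi0_ne_zero h hF hφ hpU
  have hMn : 0 < M.toNat := by have := ht.hm; omega
  have hball : s ∈ Metric.ball (0 : ℂ) (Real.exp (-(2 * Real.pi * bh G p))) := by
    rw [Metric.mem_ball, dist_zero_right]
    refine hs.trans ?_
    rw [Real.exp_lt_exp, hp, bh_pT x hT]
    have := ht.par
    have := ht.hδ
    have h1 : T * (bf G x x / 2) < T * (hgt G M n v x - 3 * δ / 4) := by
      apply mul_lt_mul_of_pos_left _ hT
      linarith
    nlinarith
  have hgc : ContinuousAt (gs φ p) s :=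
    ((gs_diff hφ hpU).differentiableAt (Metric.isOpen_ball.mem_nhds hball)).continuousAt
  have hBc : ContinuousAt (fun t => 1 - zt G M n v x T * t ^ M.toNat) s := by fun_prop
  by_cases hs0 : s = 0
  · subst hs0
    refine Cmp.of_cont hgc.norm (hBc.norm.pow β) ?_ ?_
    · rw [gs_zero h0]; simp
    · rw [zero_pow hMn.ne']; simp
  · obtain ⟨ω₀, hω₀, him⟩ := exists_ee hs0
    have hlow : T * (hgt G M n v x - 3 * δ / 4) < ω₀.im := by
      rw [him, lt_div_iff₀ (by positivity)]
      have := Real.log_lt_log (norm_pos_iff.2 hs0) hs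
      rw [Real.log_exp] at this
      linarith
    obtain ⟨hbh, hmem⟩ := mem_slice h.toPosD ht hT hlow
    by_cases hB : 1 - zt G M n v x T * s ^ M.toNat = 0
    · -- on the wall
      have he1 : ee (WL G 0 0 M n v (ω₀, p)) = 1 := by
        rw [ee_WL ht.hm, hω₀]
        linear_combination -hB
      obtain ⟨b, hb⟩ : ∃ b : ℤ, WL G 0 0 M n v (ω₀, p) = b := by
        unfold ee at he1
        rw [Complex.exp_eq_one_iff] at he1
        obtain ⟨b, hb⟩ := he1
        refine ⟨b, ?_⟩
        have h2 := Complex.two_pi_I_ne_zero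
        apply mul_left_cancel₀ h2
        rw [hb]
        ring
      have hWL : WL G 0 (-b) M n v (ω₀, p) = 0 := by
        rw [hp, WL_pT] at hb ⊢
        push_cast at hb ⊢
        linear_combination hb
      have hkf : 2 < kf G (imW (ω₀, p)) (imW (ω₀, p)) := by
        rw [kf_im_eq (mem_Hd'.1 hmem).1]
        have := ht_slice h.toPosD ht hT hT2 hlow
        linarith
      obtain ⟨U, u, hUo, hWU, hUH, hud, hune, hueq⟩ := hF.simple (ω₀, p) hmem 0 (-b) M n v
        (by have := ht.hn; linarith) hWL (by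
          intro a' b' m' n' v' hn' hW'
          have ha' := wall_a h.toPosD hmem hW' hn' hkf
          subst ha'
          have hn'' : bf G v' v' - 2 * (m' * n') = 2 := by linarith
          rcases lt_or_gt_of_ne (m_ne_zero h hn'') with hm' | hm'
          · right
            have hneg := WL_neg (G := G) 0 b' m' n' v' (ω₀, p)
            rw [hW'] at hneg
            have hneg' : WL G 0 (-b') (-m') (-n') (-v') (ω₀, p) = 0 := by simpa using hneg
            obtain ⟨e1, e2, e3⟩ := wall_unique h.toPosD ht hT hlow (by omega)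
              (by rw [bf_neg_neg]; linarith) hneg'
            have e4 : -b' = -b := by
              rw [e1, e2, e3] at hneg'
              rw [hp, WL_pT] at hneg' hWL
              have : ((-b' : ℤ) : ℂ) = ((-b : ℤ) : ℂ) := by linear_combination hneg' - hWL
              exact_mod_cast this
            exact ⟨by simp, by omega, by omega, by omega, by rw [← e3, neg_neg]⟩
          · left
            obtain ⟨e1, e2, e3⟩ := wall_unique h.toPosD ht hT hlow hm' hn'' hW'
            have e4 : b' = -b := by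
              rw [e1, e2, e3] at hW'
              rw [hp, WL_pT] at hW' hWL
              have : ((b' : ℤ) : ℂ) = ((-b : ℤ) : ℂ) := by linear_combination hW' - hWL
              exact_mod_cast this
            exact ⟨rfl, e4, e1, e2, e3⟩)
      obtain ⟨ω, hωc, hωs, hωe⟩ := local_inv hω₀
      set w : ℂ → ℂ := fun t => WL G 0 (-b) M n v (ω t, p) with hw
      have hwc : ContinuousAt w s := by
        have : w = fun t => ((-b : ℤ) : ℂ) + M * ω t +
            ((T * ((n : ℝ) + bf G (vr v) x) : ℝ) : ℂ) * Complex.I := by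
          funext t
          rw [hw, hp]
          exact WL_pT _ _ _ _ _ _ _
        rw [this]
        fun_prop
      have hws : w s = 0 := by rw [hw]; simp only; rw [hωs]; exact hWL
      have hWc : ContinuousAt (fun t => ((ω t, p) : TP r)) s := by fun_prop
      have hevU : ∀ᶠ t in 𝓝 s, ((ω t, p) : TP r) ∈ U := by
        apply hWc.eventually_mem
        rw [hωs]
        exact hUo.mem_nhds hWU
      have huc : ContinuousAt (fun t => u (ω t, p)) s := by
        have h1 : ContinuousAt u (ω₀, p) :=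
          ((hud.differentiableAt (hUo.mem_nhds hWU))).continuousAt
        rw [← hωs] at h1
        exact ContinuousAt.comp (f := fun t => ((ω t, p) : TP r)) h1 hWc
      have hevb : ∀ᶠ t in 𝓝 s, bh G p < (ω t).im := by
        have h1 : ContinuousAt (fun t => (ω t).im) s := Complex.continuous_im.continuousAt.comp hωc
        have h2 : bh G p < (ω s).im := by rw [hωs]; exact hbh
        exact h1.eventually (lt_mem_nhds h2)
      have c1 : Cmp (fun t => ‖u (ω t, p) / φ 0 p‖) (fun _ => 1) s := by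
        refine Cmp.of_cont (huc.div_const _).norm continuousAt_const ?_ one_pos
        rw [norm_pos_iff, hωs]
        exact div_ne_zero (hune _ hWU) h0
      have c2 := (Cmp.exp hwc hws).pow β
      refine (c1.mul c2).congr ?_ ?_
      · filter_upwards [hevU, hevb, hωe] with t h1 h2 h3
        have e1 : gs φ p t = u (ω t, p) / φ 0 p * w t ^ β := by
          conv_lhs => rw [← h3]
          rw [gs_eq hφ hpU h2, hueq _ h1]
          ring
        rw [e1, norm_mul, norm_pow]
      · filter_upwards [hωe] with t h3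
        have e1 : ee (w t) = zt G M n v x T * t ^ M.toNat := by
          rw [hw]
          simp only
          rw [hp, ee_WL ht.hm, h3]
        rw [e1, one_mul]
    · refine Cmp.of_cont hgc.norm (hBc.norm.pow β) ?_ (pow_pos (norm_pos_iff.2 hB) β)
      rw [norm_pos_iff]
      intro hg0
      rw [← hω₀, gs_eq hφ hpU hbh, div_eq_zero_iff] at hg0
      rcases hg0 with hF0 | hF0
      · obtain ⟨b, m', n', v', hm', hn', hW'⟩ := zero_wall' h hF hmem hF0
          (ht_slice h.toPosD ht hT hT2 hlow)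
        obtain ⟨e1, e2, e3⟩ := wall_unique h.toPosD ht hT hlow hm' hn' hW'
        rw [e1, e2, e3] at hW'
        apply hB
        have := ee_WL (G := G) (n := n) (v := v) (x := x) ht.hm b T ω₀
        rw [← hω₀, ← this]
        rw [hW', ee_zero, sub_self]
      · exact h0 hF0

end

end Pool.Agent.Y813.LE
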