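import Pool.Agent.Y813.LE.Key

set_option autoImplicit false
set_option linter.unusedSectionVars false

/-!
# Asymptotics along rays
-/

namespace Pool.Agent.Y813.LE

open Complex Set Finset Topology Pool.Agent.Y813.RL

noncomputable section

theorem log_one_sub_exp {y : ℝ} (hy : 1 ≤ |y|) :
    |Real.log |1 - Real.exp y| - max 0 y| ≤ Real.log 2 := by
  have hl2 : 0 < Real.log 2 := Real.log_pos (by norm_num)
  have he : (2 : ℝ) ≤ Real.exp 1 := by
    have := Real.add_one_le_exp (1 : ℝ)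
    linarith
  rcases le_abs.1 hy with h1 | h1
  · have hey : 2 ≤ Real.exp y := he.trans (Real.exp_le_exp.2 h1)
    rw [max_eq_right (by linarith), abs_of_nonpos (show 1 - Real.exp y ≤ 0 by linarith)]
    have h2 : Real.log (-(1 - Real.exp y)) ≤ y := by
      rw [Real.log_le_iff_le_exp (by linarith)]
      linarith
    have h3 : y - Real.log 2 ≤ Real.log (-(1 - Real.exp y)) := by
      rw [Real.le_log_iff_exp_le (by linarith), Real.exp_sub, Real.exp_log (by norm_num)]
      linarith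
    rw [abs_le]
    constructor <;> linarith
  · have hey : Real.exp y ≤ 1 / 2 := by
      have h2 : Real.exp y ≤ Real.exp (-1) := Real.exp_le_exp.2 (by linarith)
      rw [Real.exp_neg] at h2
      have h3 : (Real.exp 1)⁻¹ ≤ 2⁻¹ := inv_anti₀ (by norm_num) he
      linarith
    have hpos := Real.exp_pos y
    rw [max_eq_left (by linarith), abs_of_nonneg (show 0 ≤ 1 - Real.exp y by linarith), sub_zero]
    have h2 : Real.log (1 - Real.exp y) ≤ 0 := Real.log_nonpos (by linarith) (by linarith)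
    have h3 : -Real.log 2 ≤ Real.log (1 - Real.exp y) := by
      rw [← Real.log_inv]
      apply Real.log_le_log (by norm_num)
      linarith
    rw [abs_le]
    constructor <;> linarith

theorem mul_exp_neg_le {a T : ℝ} (ha : 0 < a) : T * Real.exp (-(a * T)) ≤ 1 / a := by
  have h1 := Real.add_one_le_exp (a * T)
  have h2 := Real.exp_pos (a * T)
  rw [Real.exp_neg, ← div_eq_mul_inv, div_le_div_iff₀ h2 ha]
  linarith

variable {r : ℕ} [NeZero r] {G : Matrix (Fin r) (Fin r) ℤ}
  {k : ℤ} {β : ℕ} {F : TP r → ℂ} {φ : ℕ → ℂ × (Fin r → ℂ) → ℂ}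
  {M n : ℤ} {v : Fin r → ℤ} {δ : ℝ}

/-- **asymptotics of `log |F|` along rays near the top wall** -/
theorem asym (hKD : JobKD) (hSl : JobSlice) (h : ER G) (hF : TubeForm G k β F)
    (hφ : FJD G F φ) {A : ℤ} {c T₁ : ℝ} (hc : 0 < c) (hT₁ : 1 ≤ T₁)
    (hA : ∀ (τ : ℂ) (z : Fin r → ℂ), T₁ ≤ τ.im →
      c * Real.exp (-(2 * Real.pi * A * τ.im)) ≤ ‖φ 0 (τ, z)‖ ∧
      ‖φ 0 (τ, z)‖ ≤ 3 * c * Real.exp (-(2 * Real.pi * A * τ.im)))
    (X : Fin r → ℤ) {N : ℕ} (hN : 0 < N) (ht : TopAt G M n v (xr X N) δ) {h' : ℝ}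
    (hh : hgt G M n v (xr X N) - δ / 4 < h') (hne : h' ≠ hgt G M n v (xr X N)) :
    ∃ C T₀ : ℝ, ∀ T : ℝ, T₀ ≤ T →
      |Real.log ‖F (((T * h' : ℝ) : ℂ) * Complex.I, pT (xr X N) T)‖ -
        (-(2 * Real.pi * A) + 2 * Real.pi * β * M * max 0 (hgt G M n v (xr X N) - h')) * T| ≤ C := by
  have hpi := Real.pi_pos
  have hpi3 := Real.pi_gt_three
  set x := xr X N with hx
  set H := hgt G M n v x with hH
  have hδ := ht.hδ
  have hpar := ht.par
  rw [← hH] at hpar
  have hMpos := ht.hm
  have hMR : (1 : ℝ) ≤ M := by exact_mod_cast hMpos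
  have hMn : 0 < M.toNat := by omega
  have hMc : ((M.toNat : ℕ) : ℝ) = (M : ℝ) := by
    have : ((M.toNat : ℕ) : ℤ) = M := Int.toNat_of_nonneg hMpos.le
    exact_mod_cast congrArg (fun z : ℤ => (z : ℝ)) this
  obtain ⟨M₁, hM₁⟩ := bound_slice hKD h.toPosD hF X hN (η := δ / 4) (by positivity)
  set M₂ := max M₁ 1 with hM₂
  have hM₂0 : 0 < M₂ := lt_of_lt_of_le one_pos (le_max_right _ _)
  set K₀ := |Real.log (M₂ / c)| + 2 * Real.pi * |(A : ℝ)| with hK₀
  have hK₀0 : 0 ≤ K₀ := by positivity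
  set y₀ := 2 * Real.pi * M * |H - h'| with hy₀
  have hne' : 0 < |H - h'| := abs_pos.2 (sub_ne_zero.2 (Ne.symm hne))
  have hy₀0 : 0 < y₀ := by positivity
  refine ⟨4 * K₀ * (1 / (Real.pi * δ / 2)) + (|Real.log c| + Real.log 3) + β * Real.log 2,
    max (max T₁ (4 / δ + 1)) (1 / y₀), fun T hT => ?_⟩
  have hTT1 : T₁ ≤ T := (le_max_left _ _).trans ((le_max_left _ _).trans hT)
  have hTδ : 4 / δ + 1 ≤ T := (le_max_right _ _).trans ((le_max_left _ _).trans hT)
  have hTy : 1 / y₀ ≤ T := (le_max_right _ _).trans hT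
  have hT1 : 1 ≤ T := hT₁.trans hTT1
  have hT0 : 0 < T := by linarith
  have hTδ4 : 4 < T * δ := by
    have h1 : 4 / δ < T := by linarith
    rwa [div_lt_iff₀ hδ] at h1
  have hT2 : 1 < T ^ 2 * (δ / 4) := by
    have e : T ^ 2 * (δ / 4) = T * (T * δ / 4) := by ring
    have e2 : T * 1 < T * (T * δ / 4) := mul_lt_mul_of_pos_left (by linarith) hT0
    rw [e]
    linarith
  set p := pT x T with hp
  have hpU : p ∈ UP r := pT_mem x hT0
  have h0 : φ 0 p ≠ 0 := phi0_ne_zero h hF hφ hpU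
  obtain ⟨hlo, hup⟩ := hA p.1 p.2 (by rw [hp, pT_im]; exact hTT1)
  rw [show (p.1, p.2) = p from rfl, hp, pT_im, ← hp] at hlo hup
  set R := Real.exp (-(2 * Real.pi * (T * (H - δ / 2)))) with hR
  set R' := Real.exp (-(2 * Real.pi * (T * (H - 3 * δ / 4)))) with hR'
  have hR0 : 0 < R := Real.exp_pos _
  have hRR' : R < R' := by
    rw [hR, hR', Real.exp_lt_exp]
    have : T * (H - 3 * δ / 4) < T * (H - δ / 2) := by
      apply mul_lt_mul_of_pos_left _ hT0
      linarith
    exact neg_lt_neg (mul_lt_mul_of_pos_left this (by positivity))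
  have hR'b : R' ≤ Real.exp (-(2 * Real.pi * bh G p)) := by
    rw [hR', Real.exp_le_exp, hp, bh_pT x hT0]
    have : T * (bf G x x / 2) ≤ T * (H - 3 * δ / 4) := by
      apply mul_le_mul_of_nonneg_left _ hT0.le
      linarith
    exact neg_le_neg (mul_le_mul_of_nonneg_left this (by positivity))
  have hbound : ∀ s ∈ Metric.ball (0 : ℂ) R', ‖gs φ p s‖ ≤ Real.exp (K₀ * T) := by
    intro s hs
    rw [Metric.mem_ball, dist_zero_right] at hs
    by_cases hs0 : s = 0
    · subst hs0
      rw [gs_zero h0, norm_one]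
      exact Real.one_le_exp (by positivity)
    · obtain ⟨ω, hω, him⟩ := exists_ee hs0
      have hlow : T * (H - 3 * δ / 4) < ω.im := by
        rw [him, lt_div_iff₀ (by positivity)]
        have := Real.log_lt_log (norm_pos_iff.2 hs0) hs
        rw [hR', Real.log_exp] at this
        linarith
      obtain ⟨hbh, hmem⟩ := mem_slice h.toPosD ht hT0 hlow
      rw [← hω, gs_eq hφ hpU hbh, norm_div]
      have h1 : ‖F (ω, p)‖ ≤ M₂ := by
        refine (hM₁ (ω, p) ?_ ?_ ?_).trans (le_max_left _ _)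
        · simp only [hp]; rw [pT_im]; exact hT1
        · simp only [hp]; rw [imv_pT, pT_im]
        · simp only [hp]; rw [pT_im]
          have e3 : T * (bf G x x / 2 + δ / 4) ≤ T * (H - 3 * δ / 4) :=
            mul_le_mul_of_nonneg_left (by linarith) hT0.le
          linarith
      have h2 : 0 < c * Real.exp (-(2 * Real.pi * A * T)) := by positivity
      calc ‖F (ω, p)‖ / ‖φ 0 p‖ ≤ M₂ / (c * Real.exp (-(2 * Real.pi * A * T))) := by
            gcongr
        _ = (M₂ / c) * Real.exp (2 * Real.pi * A * T) := by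
            rw [Real.exp_neg]
            field_simp
        _ ≤ Real.exp |Real.log (M₂ / c)| * Real.exp (2 * Real.pi * A * T) := by
            gcongr
            calc M₂ / c = Real.exp (Real.log (M₂ / c)) := (Real.exp_log (by positivity)).symm
              _ ≤ _ := Real.exp_le_exp.2 (le_abs_self _)
        _ = Real.exp (|Real.log (M₂ / c)| + 2 * Real.pi * A * T) := (Real.exp_add _ _).symm
        _ ≤ Real.exp (K₀ * T) := by
            apply Real.exp_le_exp.2
            have e1 : |Real.log (M₂ / c)| ≤ |Real.log (M₂ / c)| * T :=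
              le_mul_of_one_le_right (abs_nonneg _) hT1
            have e2 : 2 * Real.pi * A * T ≤ 2 * Real.pi * |(A : ℝ)| * T := by
              have := le_abs_self (A : ℝ)
              have h3 : (A : ℝ) * T ≤ |(A : ℝ)| * T := mul_le_mul_of_nonneg_right this hT0.le
              have h4 := mul_le_mul_of_nonneg_left h3 (show 0 ≤ 2 * Real.pi by positivity)
              linarith
            rw [hK₀]
            linarith
  have hzn : ‖zt G M n v x T‖ = Real.exp (2 * Real.pi * T * M * H) := by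
    unfold zt
    rw [Complex.norm_real, Real.norm_eq_abs, abs_of_pos (Real.exp_pos _)]
  have h2z : 2 ≤ ‖zt G M n v x T‖ * R ^ M.toNat := by
    rw [hzn, hR, ← Real.exp_nat_mul, ← Real.exp_add, hMc]
    have e1 : 2 * Real.pi * T * M * H + M * -(2 * Real.pi * (T * (H - δ / 2))) =
        Real.pi * M * (T * δ) := by ring
    rw [e1]
    have e2 : 1 ≤ Real.pi * M * (T * δ) := by
      have : 1 ≤ Real.pi * M := one_le_mul_of_one_le_of_one_le (by linarith) hMR
      exact one_le_mul_of_one_le_of_one_le this (by linarith)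
    have := Real.add_one_le_exp (Real.pi * M * (T * δ))
    linarith
  set s : ℂ := ee (((T * h' : ℝ) : ℂ) * Complex.I) with hs
  have hsn : ‖s‖ = Real.exp (-(2 * Real.pi * (T * h'))) := by
    rw [hs, norm_ee]
    simp
  have hsr : s = ((Real.exp (-(2 * Real.pi * (T * h'))) : ℝ) : ℂ) := by
    rw [hs]
    unfold ee
    rw [Complex.ofReal_exp]
    congr 1
    push_cast
    have hI : Complex.I * Complex.I = -1 := Complex.I_mul_I
    linear_combination (2 * (Real.pi : ℂ) * (T * h')) * hI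
  have hgap : T * (δ / 4) ≤ T * (h' - H + δ / 2) := by
    apply mul_le_mul_of_nonneg_left _ hT0.le
    linarith
  have hsR : ‖s‖ ≤ R / 2 := by
    rw [hsn, hR]
    have e1 : Real.exp (-(2 * Real.pi * (T * h'))) =
        Real.exp (-(2 * Real.pi * (T * (H - δ / 2)))) *
          Real.exp (-(2 * Real.pi * (T * (h' - H + δ / 2)))) := by
      rw [← Real.exp_add]
      congr 1
      ring
    have e2 : Real.exp (-(2 * Real.pi * (T * (h' - H + δ / 2)))) ≤ 1 / 2 := by
      have h3 : Real.exp (-(2 * Real.pi * (T * (h' - H + δ / 2)))) ≤ Real.exp (-1) := by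
        apply Real.exp_le_exp.2
        have e3 : 1 ≤ T * (h' - H + δ / 2) := by linarith
        have e4 : 1 ≤ 2 * Real.pi * (T * (h' - H + δ / 2)) :=
          one_le_mul_of_one_le_of_one_le (by linarith) e3
        linarith
      have he : (2 : ℝ) ≤ Real.exp 1 := by
        have := Real.add_one_le_exp (1 : ℝ)
        linarith
      rw [Real.exp_neg 1] at h3
      have h4 : (Real.exp 1)⁻¹ ≤ 2⁻¹ := inv_anti₀ (by norm_num) he
      linarith
    rw [e1]
    have := mul_le_mul_of_nonneg_left e2 (Real.exp_pos (-(2 * Real.pi * (T * (H - δ / 2))))).le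
    linarith
  set y := 2 * Real.pi * T * M * (H - h') with hy
  have hzs : zt G M n v x T * s ^ M.toNat = ((Real.exp y : ℝ) : ℂ) := by
    rw [hsr]
    unfold zt
    rw [← Complex.ofReal_pow, ← Complex.ofReal_mul, ← Real.exp_nat_mul, ← Real.exp_add, hMc]
    congr 2
    rw [hy, ← hH]
    ring
  have hyabs : 1 ≤ |y| := by
    rw [hy, abs_mul, abs_of_pos (show 0 < 2 * Real.pi * T * M by positivity)]
    rw [div_le_iff₀ hy₀0, hy₀] at hTy
    linarith
  have hB : 1 - zt G M n v x T * s ^ M.toNat ≠ 0 := by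
    rw [hzs]
    intro hcon
    have h1 : ((Real.exp y : ℝ) : ℂ) = 1 := by linear_combination -hcon
    have h2 : Real.exp y = 1 := by exact_mod_cast h1
    rw [Real.exp_eq_one_iff] at h2
    rw [h2] at hyabs
    simp at hyabs
    linarith
  have hcmp : ∀ s ∈ Metric.ball (0 : ℂ) R', ∃ C : ℝ, ∀ᶠ t in 𝓝 s,
      ‖gs φ p t‖ ≤ C * ‖1 - zt G M n v x T * t ^ M.toNat‖ ^ β ∧
      ‖1 - zt G M n v x T * t ^ M.toNat‖ ^ β ≤ C * ‖gs φ p t‖ := by
    intro s hs
    rw [Metric.mem_ball, dist_zero_right] at hs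
    obtain ⟨C, _, hC⟩ := cmp_slice h hF hφ ht hT0 hT2 hs
    exact ⟨C, hC.mono fun t ht => ht.2.2⟩
  have hsball : s ∈ Metric.ball (0 : ℂ) R' := by
    rw [Metric.mem_ball, dist_zero_right]
    linarith
  have hgs0 : gs φ p s ≠ 0 := by
    obtain ⟨C, hC⟩ := hcmp s hsball
    have h1 := hC.self_of_nhds.2
    intro h2
    rw [h2, norm_zero, mul_zero] at h1
    have := pow_pos (norm_pos_iff.2 hB) β
    linarith
  have key := hSl R R' (K₀ * T) β M.toNat (zt G M n v x T) (gs φ p) hR0 hRR' (by positivity) hMn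
    ((gs_diff hφ hpU).mono (Metric.ball_subset_ball hR'b)) (gs_zero h0) hbound h2z hcmp s hsR hB
  -- F
  have hωim : (((T * h' : ℝ) : ℂ) * Complex.I).im = T * h' := by simp
  have hlow : T * (H - 3 * δ / 4) < (((T * h' : ℝ) : ℂ) * Complex.I).im := by
    rw [hωim]
    apply mul_lt_mul_of_pos_left _ hT0
    linarith
  obtain ⟨hbh, hmem⟩ := mem_slice h.toPosD ht hT0 hlow
  have hgF : gs φ p s = F (((T * h' : ℝ) : ℂ) * Complex.I, p) / φ 0 p := gs_eq hφ hpU hbh
  have hF0 : F (((T * h' : ℝ) : ℂ) * Complex.I, p) ≠ 0 := by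
    intro hcon
    rw [hgF, hcon, zero_div] at hgs0
    exact hgs0 rfl
  have hlog1 : Real.log ‖gs φ p s‖ =
      Real.log ‖F (((T * h' : ℝ) : ℂ) * Complex.I, p)‖ - Real.log ‖φ 0 p‖ := by
    rw [hgF, norm_div, Real.log_div (norm_ne_zero_iff.2 hF0) (norm_ne_zero_iff.2 h0)]
  have hlog2 : |Real.log ‖φ 0 p‖ + 2 * Real.pi * A * T| ≤ |Real.log c| + Real.log 3 := by
    have h1 : Real.log c + -(2 * Real.pi * A * T) ≤ Real.log ‖φ 0 p‖ := by
      have := Real.log_le_log (by positivity) hlo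
      rwa [Real.log_mul hc.ne' (Real.exp_pos _).ne', Real.log_exp] at this
    have h2 : Real.log ‖φ 0 p‖ ≤ Real.log 3 + Real.log c + -(2 * Real.pi * A * T) := by
      have := Real.log_le_log (norm_pos_iff.2 h0) hup
      rwa [Real.log_mul (by positivity) (Real.exp_pos _).ne', Real.log_exp,
        Real.log_mul (by norm_num) hc.ne'] at this
    have h3 : 0 < Real.log 3 := Real.log_pos (by norm_num)
    rw [abs_le]
    constructor
    · linarith [neg_abs_le (Real.log c)]
    · linarith [le_abs_self (Real.log c)]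
  have hlog3 : |Real.log ‖1 - zt G M n v x T * s ^ M.toNat‖ - max 0 y| ≤ Real.log 2 := by
    have e : ‖1 - zt G M n v x T * s ^ M.toNat‖ = |1 - Real.exp y| := by
      rw [hzs, ← Complex.ofReal_one, ← Complex.ofReal_sub, Complex.norm_real, Real.norm_eq_abs]
    rw [e]
    exact log_one_sub_exp hyabs
  have hlog4 : 4 * (K₀ * T) * ‖s‖ / R ≤ 4 * K₀ * (1 / (Real.pi * δ / 2)) := by
    have e1 : ‖s‖ / R ≤ Real.exp (-(Real.pi * δ / 2 * T)) := by
      rw [hsn, hR, ← Real.exp_sub]
      apply Real.exp_le_exp.2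
      have := mul_le_mul_of_nonneg_left hgap (show 0 ≤ 2 * Real.pi by positivity)
      linarith
    have e2 := mul_exp_neg_le (a := Real.pi * δ / 2) (T := T) (by positivity)
    calc 4 * (K₀ * T) * ‖s‖ / R = 4 * K₀ * (T * (‖s‖ / R)) := by ring
      _ ≤ 4 * K₀ * (T * Real.exp (-(Real.pi * δ / 2 * T))) := by gcongr
      _ ≤ _ := by gcongr
  have hmax : max 0 y = 2 * Real.pi * M * max 0 (H - h') * T := by
    rw [hy]
    rcases le_total 0 (H - h') with h1 | h1
    · rw [max_eq_right h1, max_eq_right (by positivity)]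
      ring
    · rw [max_eq_left h1, max_eq_left (by
        have : 0 ≤ 2 * Real.pi * T * M := by positivity
        exact mul_nonpos_of_nonneg_of_nonpos this h1)]
      ring
  rw [hlog1] at key
  rw [hmax] at hlog3
  have k1 := key.trans hlog4
  rw [abs_le] at k1 hlog2 hlog3 ⊢
  have hβ : (0 : ℝ) ≤ β := Nat.cast_nonneg β
  have b1 : (β : ℝ) * Real.log ‖1 - zt G M n v x T * s ^ M.toNat‖ ≤
      β * (2 * Real.pi * M * max 0 (H - h') * T + Real.log 2) := by
    apply mul_le_mul_of_nonneg_left _ hβ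
    linarith [hlog3.2]
  have b2 : β * (2 * Real.pi * M * max 0 (H - h') * T - Real.log 2) ≤
      (β : ℝ) * Real.log ‖1 - zt G M n v x T * s ^ M.toNat‖ := by
    apply mul_le_mul_of_nonneg_left _ hβ
    linarith [hlog3.1]
  constructor
  · linarith [k1.1, hlog2.1]
  · linarith [k1.2, hlog2.2]

end

end Pool.Agent.Y813.LE
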