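import Pool.Agent.Y813.LE.Key2

set_option autoImplicit false
set_option linter.unusedSectionVars false

/-!
# The relation between the Weyl vector and the top walls
-/

namespace Pool.Agent.Y813.LE

open Complex Set Finset Topology Pool.Agent.Y813.RL

noncomputable section

theorem slope_zero {a C T₀ : ℝ} (h : ∀ T : ℝ, T₀ ≤ T → |a * T| ≤ C) : a = 0 := by
  by_contra ha
  have ha' : 0 < |a| := abs_pos.2 ha
  have h1 := h (max T₀ ((|C| + 1) / |a|)) (le_max_left _ _)
  have h2 : (|C| + 1) / |a| ≤ max T₀ ((|C| + 1) / |a|) := le_max_right _ _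
  have h3 : 0 ≤ (|C| + 1) / |a| := by positivity
  rw [abs_mul, abs_of_nonneg (h3.trans h2)] at h1
  rw [div_le_iff₀ ha'] at h2
  linarith [le_abs_self C]

variable {r : ℕ} [NeZero r] {G : Matrix (Fin r) (Fin r) ℤ}
  {k : ℤ} {β : ℕ} {F : TP r → ℂ} {φ : ℕ → ℂ × (Fin r → ℂ) → ℂ}
  {M n : ℤ} {v : Fin r → ℤ}

theorem hgt_spec (hM : 0 < M) (x : Fin r → ℝ) :
    (M : ℝ) * hgt G M n v x + n + bf G (vr v) x = 0 := by
  have : (0 : ℝ) < M := by exact_mod_cast hM
  unfold hgt
  have e : (fun i => (v i : ℝ)) = vr v := rfl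
  rw [e]
  field_simp
  ring

/-- the reflected point -/
theorem refl_point (hF : TubeForm G k β F) (hM : 0 < M) (hn : bf G v v - 2 * (M * n) = 2)
    (X : Fin r → ℤ) {N : ℕ} (hN : 0 < N) {J : ℕ} (hJ : M ^ 2 < J) {X' : Fin r → ℤ} {N' : ℕ}
    (hX' : X' = fun i => J * X i + M * N * v i) (hN' : (N' : ℤ) = N * (J - M ^ 2)) :
    ∃ h'' : ℝ, hgt G M n v (xr X' N') < h'' ∧ ∀ T : ℝ,
      (((T * (hgt G M n v (xr X N) - 1 / J) : ℝ) : ℂ) * Complex.I, pT (xr X N) T) ∈ Hd G →
      F (((T * (hgt G M n v (xr X N) - 1 / J) : ℝ) : ℂ) * Complex.I, pT (xr X N) T) =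
      F ((((T * (1 - (M : ℝ) ^ 2 / J)) * h'' : ℝ) : ℂ) * Complex.I,
        pT (xr X' N') (T * (1 - (M : ℝ) ^ 2 / J))) := by
  set x := xr X N with hx
  set H := hgt G M n v x with hH
  have hMR : (0 : ℝ) < M := by exact_mod_cast hM
  have hNR : (0 : ℝ) < N := by exact_mod_cast hN
  have hJR : (M : ℝ) ^ 2 < J := by exact_mod_cast hJ
  have hJ0 : (0 : ℝ) < J := lt_of_le_of_lt (sq_nonneg _) hJR
  have hN'R : (N' : ℝ) = N * (J - (M : ℝ) ^ 2) := by exact_mod_cast hN'
  have hJM : 0 < (J : ℝ) - (M : ℝ) ^ 2 := by linarith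
  have hN'0 : (0 : ℝ) < N' := by rw [hN'R]; positivity
  set l : ℝ := -(M / J) with hl
  set lam : ℝ := 1 - (M : ℝ) ^ 2 / J with hlam
  have hlam0 : 0 < lam := by
    rw [hlam, sub_pos, div_lt_one hJ0]
    exact hJR
  have hlaml : lam = 1 + l * M := by
    rw [hlam, hl]
    ring
  have hx' : ∀ i, lam * xr X' N' i = x i - l * v i := by
    intro i
    rw [hlam, hl, hx]
    simp only [xr, hX', hN'R]
    push_cast
    field_simp
    ring
  have hx'v : xr X' N' = lam⁻¹ • (x - l • vr v) := by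
    funext i
    simp only [Pi.smul_apply, Pi.sub_apply, smul_eq_mul, vr]
    rw [← hx' i]
    field_simp
  have hspec := hgt_spec (G := G) (n := n) (v := v) hM x
  rw [← hH] at hspec
  have hnR : ((bf G v v : ℤ) : ℝ) - 2 * (M * n) = 2 := by exact_mod_cast hn
  have hl' : (M : ℝ) * (H - 1 / J) + n + bf G (vr v) x = l := by
    rw [hl]
    linear_combination hspec
  refine ⟨(H - 1 / J + l * n) / lam, ?_, fun T hmem => ?_⟩
  · have hspec' := hgt_spec (G := G) (n := n) (v := v) hM (xr X' N')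
    have e1 : bf G (vr v) (xr X' N') = lam⁻¹ * (bf G (vr v) x - l * ((bf G v v : ℤ) : ℝ)) := by
      rw [hx'v, bf_smul_right, bf_sub_right, bf_smul_right, bf_vr]
    have e2 : (M : ℝ) * ((H - 1 / J + l * n) / lam - hgt G M n v (xr X' N')) = -l / lam := by
      have e3 : (M : ℝ) * hgt G M n v (xr X' N') = -(n + bf G (vr v) (xr X' N')) := by linarith
      rw [mul_sub, e3, e1]
      have hli : lam⁻¹ * lam = 1 := inv_mul_cancel₀ hlam0.ne'
      rw [eq_div_iff hlam0.ne', div_eq_mul_inv _ lam]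
      linear_combination ((M : ℝ) * (H - 1 / J + l * n) + (bf G (vr v) x -
        l * ((bf G v v : ℤ) : ℝ))) * hli + n * hlaml + hl' - l * hnR
    have e4 : 0 < -l / lam := by
      apply div_pos _ hlam0
      rw [hl, neg_neg]
      positivity
    rw [← e2] at e4
    have := (pos_iff_pos_of_mul_pos e4).1 hMR
    linarith
  · set W : TP r := (((T * (H - 1 / J) : ℝ) : ℂ) * Complex.I, pT x T) with hW
    have href := hF.refl W hmem (n, (M, -v)) (by
      simp only [kf]
      rw [bf_neg_left, bf_neg_right, neg_neg]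
      linarith)
    have hk : kf G (cK (n, (M, -v))) W = ((T * l : ℝ) : ℂ) * Complex.I := by
      have e1 : kf G (cK (n, (M, -v))) W = WL G 0 0 M n v W := by
        simp only [kf, cK, WL]
        have : (fun i => (((-v) i : ℤ) : ℂ)) = -fun i => (v i : ℂ) := by funext i; simp
        rw [this, bf_neg_left]
        push_cast
        ring
      rw [e1, hW, WL_pT]
      have : ((T * l : ℝ) : ℂ) = ((T * ((M : ℝ) * (H - 1 / J) + n + bf G (vr v) x) : ℝ) : ℂ) := by
        rw [hl']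
      rw [this]
      push_cast
      ring
    rw [hk] at href
    rw [← href]
    congr 1
    refine Prod.ext ?_ (Prod.ext ?_ ?_)
    · simp only [hW, cK, Prod.fst_add, Prod.smul_fst, smul_eq_mul]
      have : (((T * lam) * ((H - 1 / J + l * n) / lam) : ℝ) : ℂ) =
          ((T * (H - 1 / J + l * n) : ℝ) : ℂ) := by
        congr 1
        field_simp
      rw [this]
      push_cast
      ring
    · simp only [hW, cK, pT, Prod.fst_add, Prod.snd_add, Prod.smul_fst, Prod.smul_snd,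
        smul_eq_mul]
      rw [hlaml]
      push_cast
      ring
    · funext i
      simp only [hW, cK, pT, Prod.snd_add, Prod.smul_snd, Pi.add_apply, Pi.smul_apply,
        smul_eq_mul, Pi.neg_apply]
      have : T * lam * xr X' N' i = T * (x i - l * v i) := by
        rw [mul_assoc, hx' i]
      rw [this]
      push_cast
      ring

/-- **the Weyl vector relation** -/
theorem key_eq (hKD : JobKD) (hSl : JobSlice) (h : ER G) (hF : TubeForm G k β F)
    (hφ : FJD G F φ) {A : ℤ} {c T₁ : ℝ} (hc : 0 < c) (hT₁ : 1 ≤ T₁)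
    (hA : ∀ (τ : ℂ) (z : Fin r → ℂ), T₁ ≤ τ.im →
      c * Real.exp (-(2 * Real.pi * A * τ.im)) ≤ ‖φ 0 (τ, z)‖ ∧
      ‖φ 0 (τ, z)‖ ≤ 3 * c * Real.exp (-(2 * Real.pi * A * τ.im)))
    (X : Fin r → ℤ) {N : ℕ} (hN : 0 < N) (ht : IsTop G M n v (xr X N)) : (A : ℤ) * M = β := by
  have hpi := Real.pi_pos
  obtain ⟨hM, hn, δ, ρ, hδ, hρ, htop⟩ := ht
  have hMR : (0 : ℝ) < M := by exact_mod_cast hM
  have hNR : (0 : ℝ) < N := by exact_mod_cast hN
  have htopAt : ∀ x' : Fin r → ℝ, (∀ i, |x' i - xr X N i| < ρ) → TopAt G M n v x' δ := fun x' hx' =>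
    ⟨hM, hn, hδ, (htop x' hx').1, (htop x' hx').2⟩
  set x := xr X N with hx
  set H := hgt G M n v x with hH
  -- choose J
  set S : ℝ := ∑ i, (M : ℝ) * |(v i : ℝ) + M * x i| with hS
  have hS0 : 0 ≤ S := Finset.sum_nonneg fun i _ => by positivity
  obtain ⟨J, hJ⟩ := exists_nat_gt ((M : ℝ) ^ 2 + S / ρ + 4 / δ)
  have hSρ : 0 ≤ S / ρ := by positivity
  have h4δ : 0 < 4 / δ := by positivity
  have hJ1 : (M : ℝ) ^ 2 < J := by linarith
  have hJ0 : (0 : ℝ) < J := lt_of_le_of_lt (sq_nonneg _) hJ1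
  have hJM : S / ρ < J - (M : ℝ) ^ 2 := by linarith
  have hJ2 : 4 / δ < J := by nlinarith [sq_nonneg (M : ℝ)]
  have hJZ : M ^ 2 < (J : ℤ) := by exact_mod_cast hJ1
  obtain ⟨N', hN'⟩ : ∃ N' : ℕ, (N' : ℤ) = N * (J - M ^ 2) :=
    ⟨(N * (J - M ^ 2) : ℤ).toNat, Int.toNat_of_nonneg (by
      have : (0 : ℤ) ≤ J - M ^ 2 := by omega
      positivity)⟩
  have hN'R : (N' : ℝ) = N * (J - (M : ℝ) ^ 2) := by exact_mod_cast hN'
  have hN'0 : 0 < N' := by
    have : (0 : ℝ) < N' := by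
      rw [hN'R]
      have : 0 < (J : ℝ) - (M : ℝ) ^ 2 := by linarith
      positivity
    exact_mod_cast this
  set X' : Fin r → ℤ := fun i => J * X i + M * N * v i with hX'
  have hx'near : ∀ i, |xr X' N' i - x i| < ρ := by
    intro i
    have hJM' : 0 < (J : ℝ) - (M : ℝ) ^ 2 := by linarith
    have e1 : xr X' N' i - x i = M * ((v i : ℝ) + M * x i) / (J - (M : ℝ) ^ 2) := by
      rw [hx]
      simp only [xr, hX', hN'R]
      push_cast
      field_simp
      ring
    rw [e1, abs_div, abs_mul, abs_of_pos hMR, abs_of_pos hJM', div_lt_iff₀ hJM']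
    have e2 : (M : ℝ) * |(v i : ℝ) + M * x i| ≤ S :=
      Finset.single_le_sum (f := fun i => (M : ℝ) * |(v i : ℝ) + M * x i|)
        (fun i _ => by positivity) (Finset.mem_univ i)
    rw [div_lt_iff₀ hρ] at hJM
    linarith
  have ht1 := htopAt x fun i => by simpa using hρ
  have ht2 := htopAt (xr X' N') hx'near
  obtain ⟨h'', hh'', hFeq⟩ := refl_point (n := n) (v := v) hF hM hn X hN hJZ rfl hN'
  have hinv : 1 / (J : ℝ) < δ / 4 := by
    rw [div_lt_iff₀ hδ] at hJ2
    rw [div_lt_iff₀ hJ0]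
    linarith
  have hinv0 : 0 < 1 / (J : ℝ) := by positivity
  obtain ⟨C, T₀, hC⟩ := asym hKD hSl h hF hφ hc hT₁ hA X hN ht1 (h' := H - 1 / J)
    (by rw [← hx, ← hH]; linarith) (by rw [← hx, ← hH]; linarith)
  obtain ⟨C', T₀', hC'⟩ := asym hKD hSl h hF hφ hc hT₁ hA X' hN'0 ht2 (h' := h'')
    (by linarith) (ne_of_gt hh'')
  set lam : ℝ := 1 - (M : ℝ) ^ 2 / J with hlam
  have hlam0 : 0 < lam := by
    rw [hlam, sub_pos, div_lt_one hJ0]
    exact hJ1
  have hslope : ∀ T : ℝ, max (max T₀ (T₀' / lam)) 1 ≤ T →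
      |((-(2 * Real.pi * A) + 2 * Real.pi * β * M * (1 / J)) - (-(2 * Real.pi * A)) * lam) * T| ≤
        C + C' := by
    intro T hT
    have hT1 : T₀ ≤ T := (le_max_left _ _).trans ((le_max_left _ _).trans hT)
    have hT2 : T₀' / lam ≤ T := (le_max_right _ _).trans ((le_max_left _ _).trans hT)
    have hT3 : 1 ≤ T := (le_max_right _ _).trans hT
    have hT0 : 0 < T := by linarith
    rw [div_le_iff₀ hlam0] at hT2
    have k1 := hC T hT1
    have k2 := hC' (T * lam) hT2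
    have hlow : T * (hgt G M n v x - 3 * δ / 4) < (((T * (H - 1 / J) : ℝ) : ℂ) * Complex.I).im := by
      have : (((T * (H - 1 / J) : ℝ) : ℂ) * Complex.I).im = T * (H - 1 / J) := by simp
      rw [this, ← hH]
      apply mul_lt_mul_of_pos_left _ hT0
      linarith
    have hmem := (mem_slice h.toPosD ht1 hT0 hlow).2
    have hFe := hFeq T hmem
    rw [← hx, ← hH] at k1
    rw [hFe] at k1
    have m1 : max 0 (H - (H - 1 / (J : ℝ))) = 1 / J := by
      rw [sub_sub_cancel, max_eq_right hinv0.le]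
    have m2 : max 0 (hgt G M n v (xr X' N') - h'') = 0 := max_eq_left (by linarith)
    rw [m1] at k1
    rw [m2] at k2
    have e : ((-(2 * Real.pi * A) + 2 * Real.pi * β * M * (1 / J)) -
        (-(2 * Real.pi * A)) * lam) * T =
        (Real.log ‖F ((((T * lam) * h'' : ℝ) : ℂ) * Complex.I, pT (xr X' N') (T * lam))‖ -
          (-(2 * Real.pi * A) + 2 * Real.pi * β * M * 0) * (T * lam)) -
        (Real.log ‖F ((((T * lam) * h'' : ℝ) : ℂ) * Complex.I, pT (xr X' N') (T * lam))‖ -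
          (-(2 * Real.pi * A) + 2 * Real.pi * β * M * (1 / J)) * T) := by ring
    rw [e]
    refine (abs_sub _ _).trans ?_
    linarith
  have h0 := slope_zero hslope
  have h1 : (A : ℝ) * M = β := by
    rw [hlam] at h0
    have h2 : 2 * Real.pi * (M / J) * (β - A * M) = 0 := by
      have : 2 * Real.pi * ((M : ℝ) / J) * (β - A * M) =
          (-(2 * Real.pi * A) + 2 * Real.pi * β * M * (1 / J)) -
            (-(2 * Real.pi * A)) * (1 - (M : ℝ) ^ 2 / J) := by ring
      rw [this, h0]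
    have h3 : 2 * Real.pi * ((M : ℝ) / J) ≠ 0 := by positivity
    rcases mul_eq_zero.1 h2 with h4 | h4
    · exact absurd h4 h3
    · linarith
  exact_mod_cast h1

/-- **the covering radius of `L` is at most `sqrt 2`** -/
theorem cov_of_tube (hKD : JobKD) (hFJ : JobFJ) (hSl : JobSlice) (hg : JobGeo) (hg0 : JobGeo0)
    (h : ER G) (hF : TubeForm G k β F) (hβ : 0 < β) : Cov G := by
  by_contra hcov
  obtain ⟨φ, hφ⟩ := exists_FJD hFJ hKD h.toPosD hF
  obtain ⟨A, c, T₁, hc, hT₁, hA⟩ := phi0_asym hKD h hF hφ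
  have h0 := hg0 r G h
  have hx0 : (fun _ => 0 : Fin r → ℝ) = xr (0 : Fin r → ℤ) 1 := by
    funext i; simp [xr]
  rw [hx0] at h0
  have e0 := key_eq hKD hSl h hF hφ hc hT₁ hA 0 one_pos h0
  obtain ⟨X, N, M, n, v, hN, hM, htop⟩ := hg r G h hcov
  have e1 := key_eq hKD hSl h hF hφ hc hT₁ hA X hN htop
  have hβ' : (0 : ℤ) < β := by exact_mod_cast hβ
  have hA' : A = β := by linarith
  rw [hA'] at e1
  nlinarith

end

end Pool.Agent.Y813.LE
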