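import Mathlib

set_option autoImplicit false

/-!
# Explicit matrices for the Leech lattice
-/

namespace Pool.Agent.Y813.LE

/-- rows: a basis of the Leech lattice in standard coordinates, scaled by sqrt 8 -/
def LB : Matrix (Fin 24) (Fin 24) ℤ :=
  !![1, -1, -1, -1, -1, -1, -1, -1, -1, -1, -1, -1, 1, 1, -1, -1, -1, 1, 1, 1, -1, 1, -1, -3;
    0, 2, 0, 0, 0, 0, 0, 0, 0, 0, 0, 0, 0, -2, -2, 0, 0, 0, -2, -2, -2, 0, -2, 2;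
    0, 0, 2, 0, 0, 0, 0, 0, 0, 0, 0, 0, -2, -2, -2, -2, 0, -2, -2, 0, -2, 0, 0, -4;
    0, 0, 0, 2, 0, 0, 0, 0, 0, 0, 0, 0, 0, -2, -2, -2, -2, 0, -2, -2, 0, -2, 0, -4;
    0, 0, 0, 0, 2, 0, 0, 0, 0, 0, 0, 0, 0, 0, -2, -2, -2, -2, 0, -2, -2, 0, -2, -4;
    0, 0, 0, 0, 0, 2, 0, 0, 0, 0, 0, 0, -2, -2, 0, -2, -2, 0, 0, -2, -2, 0, 0, 2;
    0, 0, 0, 0, 0, 0, 2, 0, 0, 0, 0, 0, 0, -2, -2, 0, -2, -2, 0, 0, -2, -2, 0, 2;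
    0, 0, 0, 0, 0, 0, 0, 2, 0, 0, 0, 0, 0, 0, -2, -2, 0, -2, -2, 0, 0, -2, -2, 2;
    0, 0, 0, 0, 0, 0, 0, 0, 2, 0, 0, 0, -2, -2, 0, -2, -2, -2, 0, 0, 0, -2, -2, -4;
    0, 0, 0, 0, 0, 0, 0, 0, 0, 2, 0, 0, -2, 0, -2, 0, -2, 0, 0, -2, 0, -2, -2, 2;
    0, 0, 0, 0, 0, 0, 0, 0, 0, 0, 2, 0, -2, 0, 0, -2, 0, 0, -2, -2, -2, -2, -2, -4;
    0, 0, 0, 0, 0, 0, 0, 0, 0, 0, 0, 2, -2, 0, 0, 0, -2, -2, -2, 0, -2, 0, -2, 2;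
    0, 0, 0, 0, 0, 0, 0, 0, 0, 0, 0, 0, 4, 0, 0, 0, 0, 0, 0, 0, 0, 0, 0, -4;
    0, 0, 0, 0, 0, 0, 0, 0, 0, 0, 0, 0, 0, 4, 0, 0, 0, 0, 0, 0, 0, 0, 0, -4;
    0, 0, 0, 0, 0, 0, 0, 0, 0, 0, 0, 0, 0, 0, 4, 0, 0, 0, 0, 0, 0, 0, 0, -4;
    0, 0, 0, 0, 0, 0, 0, 0, 0, 0, 0, 0, 0, 0, 0, 4, 0, 0, 0, 0, 0, 0, 0, -4;
    0, 0, 0, 0, 0, 0, 0, 0, 0, 0, 0, 0, 0, 0, 0, 0, 4, 0, 0, 0, 0, 0, 0, -4;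
    0, 0, 0, 0, 0, 0, 0, 0, 0, 0, 0, 0, 0, 0, 0, 0, 0, 4, 0, 0, 0, 0, 0, -4;
    0, 0, 0, 0, 0, 0, 0, 0, 0, 0, 0, 0, 0, 0, 0, 0, 0, 0, 4, 0, 0, 0, 0, -4;
    0, 0, 0, 0, 0, 0, 0, 0, 0, 0, 0, 0, 0, 0, 0, 0, 0, 0, 0, 4, 0, 0, 0, -4;
    0, 0, 0, 0, 0, 0, 0, 0, 0, 0, 0, 0, 0, 0, 0, 0, 0, 0, 0, 0, 4, 0, 0, -4;
    0, 0, 0, 0, 0, 0, 0, 0, 0, 0, 0, 0, 0, 0, 0, 0, 0, 0, 0, 0, 0, 4, 0, -4;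
    0, 0, 0, 0, 0, 0, 0, 0, 0, 0, 0, 0, 0, 0, 0, 0, 0, 0, 0, 0, 0, 0, 4, -4;
    0, 0, 0, 0, 0, 0, 0, 0, 0, 0, 0, 0, 0, 0, 0, 0, 0, 0, 0, 0, 0, 0, 0, 8]

/-- the Gram matrix of the Leech lattice -/
def LN : Matrix (Fin 24) (Fin 24) ℤ :=
  !![4, -1, 1, 1, 2, -1, -1, -1, 1, -1, 1, -1, 2, 2, 1, 1, 1, 2, 2, 2, 1, 2, 1, -3;
    -1, 4, 1, 1, 1, 2, 2, 2, 0, 2, 1, 2, -1, -2, -2, -1, -1, -1, -2, -2, -2, -1, -2, 2;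
    1, 1, 6, 4, 4, 1, 1, 1, 4, 0, 4, 1, 1, 1, 1, 1, 2, 1, 1, 2, 1, 2, 2, -4;
    1, 1, 4, 6, 4, 1, 1, 1, 4, 1, 4, 0, 2, 1, 1, 1, 1, 2, 1, 1, 2, 1, 2, -4;
    2, 1, 4, 4, 6, 1, 1, 1, 4, 1, 4, 1, 2, 2, 1, 1, 1, 1, 2, 1, 1, 2, 1, -4;
    -1, 2, 1, 1, 1, 4, 2, 1, 1, 2, 1, 2, -2, -2, -1, -2, -2, -1, -1, -2, -2, -1, -1, 2;
    -1, 2, 1, 1, 1, 2, 4, 2, 1, 2, 0, 2, -1, -2, -2, -1, -2, -2, -1, -1, -2, -2, -1, 2;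
    -1, 2, 1, 1, 1, 1, 2, 4, 1, 2, 1, 2, -1, -1, -2, -2, -1, -2, -2, -1, -1, -2, -2, 2;
    1, 0, 4, 4, 4, 1, 1, 1, 6, 1, 4, 1, 1, 1, 2, 1, 1, 1, 2, 2, 2, 1, 1, -4;
    -1, 2, 0, 1, 1, 2, 2, 2, 1, 4, 1, 2, -2, -1, -2, -1, -2, -1, -1, -2, -1, -2, -2, 2;
    1, 1, 4, 4, 4, 1, 0, 1, 4, 1, 6, 1, 1, 2, 2, 1, 2, 2, 1, 1, 1, 1, 1, -4;
    -1, 2, 1, 0, 1, 2, 2, 2, 1, 2, 1, 4, -2, -1, -1, -1, -2, -2, -2, -1, -2, -1, -2, 2;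
    2, -1, 1, 2, 2, -2, -1, -1, 1, -2, 1, -2, 4, 2, 2, 2, 2, 2, 2, 2, 2, 2, 2, -4;
    2, -2, 1, 1, 2, -2, -2, -1, 1, -1, 2, -1, 2, 4, 2, 2, 2, 2, 2, 2, 2, 2, 2, -4;
    1, -2, 1, 1, 1, -1, -2, -2, 2, -2, 2, -1, 2, 2, 4, 2, 2, 2, 2, 2, 2, 2, 2, -4;
    1, -1, 1, 1, 1, -2, -1, -2, 1, -1, 1, -1, 2, 2, 2, 4, 2, 2, 2, 2, 2, 2, 2, -4;
    1, -1, 2, 1, 1, -2, -2, -1, 1, -2, 2, -2, 2, 2, 2, 2, 4, 2, 2, 2, 2, 2, 2, -4;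
    2, -1, 1, 2, 1, -1, -2, -2, 1, -1, 2, -2, 2, 2, 2, 2, 2, 4, 2, 2, 2, 2, 2, -4;
    2, -2, 1, 1, 2, -1, -1, -2, 2, -1, 1, -2, 2, 2, 2, 2, 2, 2, 4, 2, 2, 2, 2, -4;
    2, -2, 2, 1, 1, -2, -1, -1, 2, -2, 1, -1, 2, 2, 2, 2, 2, 2, 2, 4, 2, 2, 2, -4;
    1, -2, 1, 2, 1, -2, -2, -1, 2, -1, 1, -2, 2, 2, 2, 2, 2, 2, 2, 2, 4, 2, 2, -4;
    2, -1, 2, 1, 2, -1, -2, -2, 1, -2, 1, -1, 2, 2, 2, 2, 2, 2, 2, 2, 2, 4, 2, -4;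
    1, -2, 2, 2, 1, -1, -1, -2, 1, -2, 1, -2, 2, 2, 2, 2, 2, 2, 2, 2, 2, 2, 4, -4;
    -3, 2, -4, -4, -4, 2, 2, 2, -4, 2, -4, 2, -4, -4, -4, -4, -4, -4, -4, -4, -4, -4, -4, 8]

/-- the Gram matrix of `E_8(2)` -/
def e82 : Matrix (Fin 8) (Fin 8) ℤ :=
  !![4, 0, 2, 0, 0, 0, 0, 2;
    0, 4, -2, 0, 0, 0, 0, 0;
    2, -2, 4, -2, 0, 0, 0, 0;
    0, 0, -2, 4, -2, 0, 0, 0;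
    0, 0, 0, -2, 4, -2, 0, 0;
    0, 0, 0, 0, -2, 4, -2, 0;
    0, 0, 0, 0, 0, -2, 4, 0;
    2, 0, 0, 0, 0, 0, 0, 4]

/-- the Gram matrix of the dual of `E_6` scaled by 3 -/
def d33 : Matrix (Fin 6) (Fin 6) ℤ :=
  !![6, 3, 3, 3, 3, 3;
    3, 6, 3, 3, 3, 3;
    3, 3, 4, 1, 2, 2;
    3, 3, 1, 4, 2, 2;
    3, 3, 2, 2, 4, 1;
    3, 3, 2, 2, 1, 4]

/-- the Gram matrix of the dual of `A_4` scaled by 5 -/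
def d5 : Matrix (Fin 4) (Fin 4) ℤ :=
  !![6, 2, 3, 4;
    2, 4, 1, 3;
    3, 1, 4, 2;
    4, 3, 2, 6]

/-- embedding of `E_8(2)` -/
def P8 : Matrix (Fin 24) (Fin 8) ℤ :=
  !![4, 4, 0, 0, 0, 0, 0, 2;
    2, 2, 0, 0, 0, 0, 0, 1;
    2, 2, 0, 0, 0, 0, 0, 1;
    2, 2, 0, 0, 0, 0, 0, 1;
    2, 2, 0, 0, 0, 0, 0, 1;
    2, 2, 0, 0, 0, 0, 0, 1;
    2, 2, 0, 0, 0, 0, 0, 1;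
    2, 2, 0, 0, 0, 0, 0, 1;
    2, 2, 0, 0, 0, 0, 0, 1;
    2, 2, 0, 0, 0, 0, 0, 1;
    2, 2, 0, 0, 0, 0, 0, 1;
    2, 2, 0, 0, 0, 0, 0, 1;
    6, 4, 1, 0, 0, 0, 0, 3;
    5, 5, -1, 1, 0, 0, 0, 3;
    8, 8, 0, 0, 0, 0, 0, 4;
    8, 8, 0, 0, 0, 0, 0, 4;
    8, 8, 0, 0, 0, 0, 0, 4;
    5, 5, 0, -1, 1, 0, 0, 3;
    5, 5, 0, 0, -1, 1, 0, 3;
    5, 5, 0, 0, 0, -1, 1, 3;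
    8, 8, 0, 0, 0, 0, 0, 4;
    5, 5, 0, 0, 0, 0, -1, 3;
    8, 8, 0, 0, 0, 0, 0, 4;
    39, 38, 0, 0, 0, 0, 0, 21]

/-- embedding -/
def P6 : Matrix (Fin 24) (Fin 6) ℤ :=
  !![2, -1, 1, 1, 0, 1;
    1, -1, 1, 0, 0, 0;
    2, 0, 1, 1, 0, 1;
    0, -1, 0, 0, -1, 0;
    1, 0, 0, 1, 0, 1;
    0, -1, 0, 0, -1, 0;
    1, -1, 0, 0, 0, 0;
    1, 0, 0, 1, 0, 0;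
    1, -1, 0, 1, 0, 1;
    1, -2, 0, 0, -1, 0;
    1, 0, 1, 0, 0, 1;
    0, -1, 0, 0, -1, 0;
    2, -2, 1, 1, -1, 1;
    2, -2, 1, 1, -1, 1;
    4, -3, 1, 2, -1, 1;
    3, -2, 1, 2, -1, 2;
    2, -4, 0, 1, -2, 1;
    2, -2, 0, 1, -1, 1;
    2, -1, 1, 1, -1, 1;
    2, -2, 1, 0, -1, 1;
    3, -3, 1, 1, -1, 1;
    2, -2, 0, 1, -1, 1;
    4, -3, 1, 2, -1, 2;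
    16, -13, 5, 8, -6, 9]

/-- embedding -/
def P4 : Matrix (Fin 24) (Fin 4) ℤ :=
  !![-1, 0, -2, 1;
    0, -1, -1, 0;
    -1, 0, -1, 0;
    0, 1, -1, 1;
    -1, 0, -1, 1;
    0, 1, 0, 1;
    0, 0, 0, 1;
    -2, 0, -1, 0;
    0, 0, 0, 1;
    0, 0, -1, 1;
    0, 1, -1, 1;
    1, 0, 0, 1;
    0, 1, -1, 2;
    0, 1, -1, 2;
    -2, 0, -3, 2;
    -2, 2, -3, 3;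
    0, 1, -2, 4;
    -1, 0, -1, 2;
    -1, 0, -2, 1;
    0, 1, -2, 2;
    0, 1, -2, 4;
    -1, 1, -2, 2;
    -1, 0, -3, 3;
    -5, 5, -13, 15]

end Pool.Agent.Y813.LE
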