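import Pool.Agent.Y488.LE.Leech
import Pool.Agent.Y46.LE.Hole
import Pool.Agent.Y338.LE.Types
import Pool.Agent.Y79.LE.Graph
import Pool.Agent.Y317.LE.Code
import Pool.Agent.Y405.LE.CaseA

set_option autoImplicit false

/-!
# Root free even lattices with covering radius at most `sqrt 2`
-/

namespace Pool.Agent.Y813.LE

open Pool.Agent.Y813.RL (bf)

theorem primSub_of {r m : ℕ} {G : Matrix (Fin r) (Fin r) ℤ} {D : Matrix (Fin m) (Fin m) ℤ}
    {Q : Matrix (Fin 24) (Fin m) ℤ} {P : Matrix (Fin m) (Fin r) ℤ} (h : ER G) (hc : Cov G)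
    (hQ : Q.transpose * LN * Q = D) (hP : P.transpose * D * P = G) : PrimSub G LN := by
  refine Y46.LE.prim r G LN (Q * P) h.toPosD hc Y488.LE.job.1 ?_
  rw [Matrix.transpose_mul, ← hP, ← hQ]
  simp only [Matrix.mul_assoc]

/-- **the lattice theorem** -/
theorem lattice_main {r : ℕ} {G : Matrix (Fin r) (Fin r) ℤ} (h : ER G) (hc : Cov G) :
    ∃ N : Matrix (Fin 24) (Fin 24) ℤ, IsLeech N ∧ PrimSub G N := by
  obtain ⟨hL, h8, h6, h4⟩ := Y488.LE.job
  by_cases h0 : ∃ u : Fin r → ℤ, bf G u u = 8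
  · rcases Y405.LE.job (Y405.LE.frame Y46.LE.hole1) Y317.LE.job r G h hc h0 with ⟨P, hP⟩ | ⟨hr, hd⟩
    · exact ⟨LN, hL, primSub_of h hc h8 hP⟩
    · subst hr
      refine ⟨G, ⟨h.symm, h.even, h.pos, hd, h.noroot⟩, 1, by simp, fun d w v hd hw => ⟨w, by simp⟩⟩
  · push Not at h0
    have hg := Y79.LE.job Y46.LE.hole0 Y46.LE.hole1 r G h hc h0
    rcases Y338.LE.types r G h hg with ⟨P, hP⟩ | ⟨P, hP⟩
    · exact ⟨LN, hL, primSub_of h hc h6 hP⟩
    · exact ⟨LN, hL, primSub_of h hc h4 hP⟩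

end Pool.Agent.Y813.LE
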