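import Pool.Agent.Y813.LE.Key3
import Pool.Agent.Y813.LE.Lattice
import Pool.Agent.Y813.LE.Defs2
import Pool.Agent.Y319.LE.Char
import Pool.Agent.Y448.LE.Tube7
import Pool.Agent.Y448.LE.Comp
import Pool.Agent.Y674.LE.Slice
import Pool.Agent.Y317.LE.Geo3
import Pool.Agent.Y683.RL.Kd
import Pool.Agent.Y683.RL.Fj

set_option autoImplicit false

/-!
# Modular forms with complete 2-divisor and sublattices of the Leech lattice
-/

namespace Pool.Agent.Y813.LE

open Complex Set Pool.Agent.Y813.RL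
open Pool.Agent.Y813.Lee (gramM IsModularForm HasCompleteTwoDivisor IsLeechLattice
  IsPrimitiveSublattice SatisfiesNorm2)
open Pool.Agent.Y813.Refl (form quadric act discKernel)

/-- the covering radius of `L` is at most `sqrt 2` -/
theorem cov_of_form {r : ℕ} {G : Matrix (Fin r) (Fin r) ℤ} (h : ER G)
    {Z₀ : Fin 4 ⊕ Fin r → ℂ} (hZ₀ : Z₀ ∈ quadric (gramM G)) {k : ℤ}
    {χ : discKernel (gramM G) (connectedComponentIn (quadric (gramM G)) Z₀) →* ℂˣ}
    {F : (Fin 4 ⊕ Fin r → ℂ) → ℂ}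
    (hF : IsModularForm (gramM G) (connectedComponentIn (quadric (gramM G)) Z₀) k χ F)
    (hD : HasCompleteTwoDivisor (gramM G) (connectedComponentIn (quadric (gramM G)) Z₀) F) :
    Cov G := by
  rcases Nat.eq_zero_or_pos r with hr | hr
  · subst hr
    intro x
    refine ⟨0, ?_⟩
    unfold sd bf
    simp
  · have : NeZero r := ⟨hr.ne'⟩
    obtain ⟨k, χ, F, hF, hD⟩ := Y448.LE.comp r G h.toPosD Z₀ hZ₀ ⟨k, χ, F, hF, hD⟩
    exact cov_of_tube Y683.RL.jobKD Y683.RL.jobFJ Y674.LE.job Y317.LE.geo Y317.LE.geo0 h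
      (Y448.LE.tube Y319.LE.job r G h k χ F hF hD) (by norm_num)

theorem norm2_of_cov {r : ℕ} {G : Matrix (Fin r) (Fin r) ℤ} (h : PosD G) (hc : Cov G) :
    SatisfiesNorm2 G := by
  intro x _
  obtain ⟨v, hv⟩ := hc fun i => (x i : ℝ)
  have e : sd G (fun i => (x i : ℝ)) v =
      ((form G (fun i => x i - v i) (fun i => x i - v i) : ℚ) : ℝ) := by
    unfold sd
    have h1 := bf_map G (Rat.castHom ℝ) (fun i => x i - (v i : ℚ)) (fun i => x i - (v i : ℚ))
    have h2 : (fun i => (x i : ℝ) - (v i : ℝ)) =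
        fun i => (Rat.castHom ℝ) (x i - (v i : ℚ)) := by
      funext i
      simp
    rw [h2, h1]
    rfl
  have h0 : 0 ≤ sd G (fun i => (x i : ℝ)) v := h.nonneg _
  rw [e] at hv h0
  exact ⟨v, by exact_mod_cast h0, by exact_mod_cast hv⟩

/-- **Q1 of MP_ccc26a_nt** -/
theorem main {r : ℕ} {G : Matrix (Fin r) (Fin r) ℤ} (h : ER G)
    {Z₀ : Fin 4 ⊕ Fin r → ℂ} (hZ₀ : Z₀ ∈ quadric (gramM G)) {k : ℤ}
    {χ : discKernel (gramM G) (connectedComponentIn (quadric (gramM G)) Z₀) →* ℂˣ}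
    {F : (Fin 4 ⊕ Fin r → ℂ) → ℂ}
    (hF : IsModularForm (gramM G) (connectedComponentIn (quadric (gramM G)) Z₀) k χ F)
    (hD : HasCompleteTwoDivisor (gramM G) (connectedComponentIn (quadric (gramM G)) Z₀) F) :
    (∃ N : Matrix (Fin 24) (Fin 24) ℤ, IsLeechLattice N ∧ IsPrimitiveSublattice G N) ∧
      SatisfiesNorm2 G := by
  have hc := cov_of_form h hZ₀ hF hD
  obtain ⟨N, hN, hP⟩ := lattice_main h hc
  exact ⟨⟨N, ⟨hN.symm, hN.even, hN.pos, hN.unimodular, hN.noroot⟩, hP⟩, norm2_of_cov h.toPosD hc⟩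

end Pool.Agent.Y813.LE
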