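import Pool.Agent.Y813.LE.Stm
import Pool.Agent.Y813.LE.Defs
import Pool.Agent.Y813.RL.Tube1

set_option autoImplicit false

/-!
# The tube domain: definitions
-/

namespace Pool.Agent.Y813.LE

open Complex Set Pool.Agent.Y813.RL

noncomputable section

variable {r : ℕ}

theorem PosD.nonneg {A : Matrix (Fin r) (Fin r) ℤ} (h : PosD A) (x : Fin r → ℝ) :
    0 ≤ bf A x x := by
  by_cases hx : x = 0
  · simp [hx, bf]
  · exact (h.pos x hx).le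

theorem PosD.eq_zero {A : Matrix (Fin r) (Fin r) ℤ} (h : PosD A) {x : Fin r → ℝ}
    (hx : bf A x x = 0) : x = 0 := by
  by_contra hne
  exact (h.pos x hne).ne' hx

/-- Cauchy-Schwarz -/
theorem PosD.cs {A : Matrix (Fin r) (Fin r) ℤ} (h : PosD A) (x y : Fin r → ℝ) :
    bf A x y ^ 2 ≤ bf A x x * bf A y y := by
  by_cases hy : bf A y y = 0
  · have := h.eq_zero hy
    simp [this, bf]
  · have hy' : 0 < bf A y y := lt_of_le_of_ne (h.nonneg y) (Ne.symm hy)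
    have := h.nonneg (bf A y y • x - bf A x y • y)
    rw [bf_sub_left, bf_sub_right, bf_sub_right, bf_smul_left, bf_smul_right, bf_smul_left,
      bf_smul_right, bf_smul_left, bf_smul_right, bf_smul_left, bf_smul_right,
      bf_comm h.symm y x] at this
    have h2 : 0 ≤ bf A y y * (bf A x x * bf A y y - bf A x y ^ 2) := by
      nlinarith
    have := nonneg_of_mul_nonneg_right h2 hy'
    linarith

/-- the points `(omega, (tau, z))` -/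
abbrev TP (r : ℕ) := ℂ × (ℂ × (Fin r → ℂ))

/-- the lower bound for the imaginary part of `omega` -/
def bh (G : Matrix (Fin r) (Fin r) ℤ) (p : ℂ × (Fin r → ℂ)) : ℝ :=
  bf G (imv p.2) (imv p.2) / (2 * p.1.im)

/-- `H x C^r` -/
def UP (r : ℕ) : Set (ℂ × (Fin r → ℂ)) := {p | 0 < p.1.im}

/-- the tube domain -/
def Hd (G : Matrix (Fin r) (Fin r) ℤ) : Set (TP r) := {W | W.2 ∈ UP r ∧ bh G W.2 < W.1.im}

/-- the bilinear form of `K = U + L(-1)` -/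
def kf {R : Type*} [CommRing R] (G : Matrix (Fin r) (Fin r) ℤ)
    (X Y : R × (R × (Fin r → R))) : R :=
  X.1 * Y.2.1 + X.2.1 * Y.1 - bf G X.2.2 Y.2.2

/-- cast of integral vectors -/
def cK (e : ℤ × (ℤ × (Fin r → ℤ))) : TP r := ((e.1 : ℂ), ((e.2.1 : ℂ), fun i => (e.2.2 i : ℂ)))

/-- the linear form of a vector of `M` in tube coordinates -/
def WL (G : Matrix (Fin r) (Fin r) ℤ) (a b m n : ℤ) (v : Fin r → ℤ) (W : TP r) : ℂ :=
  (a : ℂ) * (bf G W.2.2 W.2.2 / 2 - W.1 * W.2.1) + b + m * W.1 + n * W.2.1 +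
    bf G (fun i => (v i : ℂ)) W.2.2

/-- a modular form with trivial character in tube coordinates whose divisor is the sum of all
mirrors of vectors of norm `-2` with multiplicity `β` -/
structure TubeForm (G : Matrix (Fin r) (Fin r) ℤ) (k : ℤ) (β : ℕ) (F : TP r → ℂ) : Prop where
  holo : DifferentiableOn ℂ F (Hd G)
  tr : ∀ W ∈ Hd G, ∀ (a b : ℤ) (v : Fin r → ℤ),
    F (W.1 + a, (W.2.1 + b, fun i => W.2.2 i + v i)) = F W
  ei : ∀ W ∈ Hd G, ∀ e u : ℤ × (ℤ × (Fin r → ℤ)), kf G e e = 0 → kf G e u = 0 →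
    F (W + kf G (cK e) W • cK u -
      (kf G (cK u) W + ((kf G u u : ℤ) : ℂ) / 2 * kf G (cK e) W) • cK e) = F W
  S : ∀ W ∈ Hd G, F (W.1 - bf G W.2.2 W.2.2 / (2 * W.2.1), (-1 / W.2.1, fun i => W.2.2 i / W.2.1))
    = W.2.1 ^ k * F W
  swap : ∀ W ∈ Hd G, F (W.2.1, (W.1, W.2.2)) = F W
  refl : ∀ W ∈ Hd G, ∀ e : ℤ × (ℤ × (Fin r → ℤ)), kf G e e = -2 →
    F (W + kf G (cK e) W • cK e) = F W
  zeros : ∀ W ∈ Hd G, F W = 0 → ∃ (a b m n : ℤ) (v : Fin r → ℤ),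
    bf G v v - 2 * (a * b) - 2 * (m * n) = 2 ∧ WL G a b m n v W = 0
  simple : ∀ W₀ ∈ Hd G, ∀ (a b m n : ℤ) (v : Fin r → ℤ),
    bf G v v - 2 * (a * b) - 2 * (m * n) = 2 → WL G a b m n v W₀ = 0 →
    (∀ (a' b' m' n' : ℤ) (v' : Fin r → ℤ), bf G v' v' - 2 * (a' * b') - 2 * (m' * n') = 2 →
      WL G a' b' m' n' v' W₀ = 0 → (a' = a ∧ b' = b ∧ m' = m ∧ n' = n ∧ v' = v) ∨
        (a' = -a ∧ b' = -b ∧ m' = -m ∧ n' = -n ∧ v' = -v)) →
    ∃ (U : Set (TP r)) (u : TP r → ℂ), IsOpen U ∧ W₀ ∈ U ∧ U ⊆ Hd G ∧ DifferentiableOn ℂ u U ∧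
      (∀ W ∈ U, u W ≠ 0) ∧ ∀ W ∈ U, F W = u W * WL G a b m n v W ^ β
  nz : ∃ W ∈ Hd G, F W ≠ 0

end

end Pool.Agent.Y813.LE
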