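import Pool.Agent.Y813.LE.Tube3
import Pool.Agent.Y813.RL.Tube5

set_option autoImplicit false

/-!
# Elements of the discriminant kernel
-/

namespace Pool.Agent.Y813.LE

open Complex Set Finset Pool.Agent.Y813.RL
open Pool.Agent.Y813.Lee (gramM)
open Pool.Agent.Y813.Refl (form quadric act discKernel gramUU act_mul act_one act_sub form_act_of_int act_cast)

noncomputable section

variable {r : ℕ}

/-- integral block matrices acting on `2U` only -/
def blk (P : Matrix (Fin 4) (Fin 4) ℤ) : Matrix (Fin 4 ⊕ Fin r) (Fin 4 ⊕ Fin r) ℤ :=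
  Matrix.fromBlocks P 0 0 1

/-- the invertible matrix -/
def blkG {P P' : Matrix (Fin 4) (Fin 4) ℤ} (h : P * P' = 1) (h' : P' * P = 1) :
    Matrix.GeneralLinearGroup (Fin 4 ⊕ Fin r) ℤ :=
  ⟨blk P, blk P', by simp [blk, Matrix.fromBlocks_multiply, h],
    by simp [blk, Matrix.fromBlocks_multiply, h']⟩

theorem act_blk_inr {R : Type*} [CommRing R] (P : Matrix (Fin 4) (Fin 4) ℤ)
    (x : Fin 4 ⊕ Fin r → R) (i : Fin r) : act (blk P) x (.inr i) = x (.inr i) := by
  simp [act, blk, Fintype.sum_sum_type, Matrix.one_apply]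

theorem act_PS {R : Type*} [CommRing R] (a b c d : R) (z : Fin r → R) :
    act (blk PS) (mk a b c d z) = mk d c (-b) (-a) z := by
  funext i
  rcases i with i | i
  · match i with
    | 0 => simp [act, blk, mk, PS, Fintype.sum_sum_type, Fin.sum_univ_four]
    | 1 => simp [act, blk, mk, PS, Fintype.sum_sum_type, Fin.sum_univ_four]
    | 2 => simp [act, blk, mk, PS, Fintype.sum_sum_type, Fin.sum_univ_four]
    | 3 => simp [act, blk, mk, PS, Fintype.sum_sum_type, Fin.sum_univ_four]
  · rw [act_blk_inr]; rfl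

theorem act_PW {R : Type*} [CommRing R] (a b c d : R) (z : Fin r → R) :
    act (blk PW) (mk a b c d z) = mk a b d c z := by
  funext i
  rcases i with i | i
  · match i with
    | 0 => simp [act, blk, mk, PW, Fintype.sum_sum_type, Fin.sum_univ_four]
    | 1 => simp [act, blk, mk, PW, Fintype.sum_sum_type, Fin.sum_univ_four]
    | 2 => simp [act, blk, mk, PW, Fintype.sum_sum_type, Fin.sum_univ_four]
    | 3 => simp [act, blk, mk, PW, Fintype.sum_sum_type, Fin.sum_univ_four]
  · rw [act_blk_inr]; rfl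

variable {G : Matrix (Fin r) (Fin r) ℤ}

/-- the coordinates of a dual vector in `2U` are integral -/
theorem dual_int (x : Fin 4 ⊕ Fin r → ℚ)
    (hx : ∀ y : Fin 4 ⊕ Fin r → ℤ, ∃ m : ℤ, form (gramM G) x (fun i => (y i : ℚ)) = m)
    (i : Fin 4) : ∃ m : ℤ, x (.inl i) = m := by
  have key : ∀ y : Fin 4 ⊕ Fin r → ℤ, bf (gramM G) x (fun i => (y i : ℚ)) =
      x (.inl 0) * y (.inl 1) + x (.inl 1) * y (.inl 0) + x (.inl 2) * y (.inl 3) +
      x (.inl 3) * y (.inl 2) - bf G (fun i => x (.inr i)) (fun i => (y (.inr i) : ℚ)) := by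
    intro y
    conv_lhs => rw [mk_eta x, mk_eta (fun i => (y i : ℚ))]
    rw [bf_mk]
  have hz : bf G (fun i => x (.inr i)) (0 : Fin r → ℚ) = 0 := bf_zero_right _ _
  match i with
  | 0 =>
    obtain ⟨m, hm⟩ := hx (mk 0 1 0 0 0)
    refine ⟨m, ?_⟩
    rw [← hm]
    refine Eq.symm ((key _).trans ?_)
    simp [mk]
    exact hz
  | 1 =>
    obtain ⟨m, hm⟩ := hx (mk 1 0 0 0 0)
    refine ⟨m, ?_⟩
    rw [← hm]
    refine Eq.symm ((key _).trans ?_)
    simp [mk]
    exact hz
  | 2 =>
    obtain ⟨m, hm⟩ := hx (mk 0 0 0 1 0)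
    refine ⟨m, ?_⟩
    rw [← hm]
    refine Eq.symm ((key _).trans ?_)
    simp [mk]
    exact hz
  | 3 =>
    obtain ⟨m, hm⟩ := hx (mk 0 0 1 0 0)
    refine ⟨m, ?_⟩
    rw [← hm]
    refine Eq.symm ((key _).trans ?_)
    simp [mk]
    exact hz

theorem blk_disc (P : Matrix (Fin 4) (Fin 4) ℤ) (x : Fin 4 ⊕ Fin r → ℚ)
    (hx : ∀ y : Fin 4 ⊕ Fin r → ℤ, ∃ m : ℤ, form (gramM G) x (fun i => (y i : ℚ)) = m) :
    ∃ w : Fin 4 ⊕ Fin r → ℤ, ∀ i, act (blk P) x i - x i = w i := by
  choose m hm using dual_int x hx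
  refine ⟨Sum.elim (fun i => ∑ j, P i j * m j - m i) 0, ?_⟩
  rintro (i | i)
  · simp only [Sum.elim_inl]
    have : act (blk P) x (.inl i) = ∑ j, (P i j : ℚ) * x (.inl j) := by
      simp [act, blk, Fintype.sum_sum_type]
    rw [this]
    simp only [hm]
    push_cast
    ring
  · rw [act_blk_inr]
    simp

theorem PS_mem : blkG PS_mul PS_mul' ∈ discKernel (gramM G) (coneM G) := by
  rw [coneM_eq]
  apply mem_disc (base_mem G)
  · intro x y
    show bf _ (act (blk PS) x) (act (blk PS) y) = bf _ x y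
    rw [mk_eta x, mk_eta y, act_PS, act_PS, bf_mk, bf_mk]
    ring
  · let γ : ℝ → Fin 4 ⊕ Fin r → ℂ := fun s =>
      Complex.exp (s * (Real.pi / 2 * Complex.I)) • ZW G W0
    have hγ1 : γ 1 = act (blkG PS_mul PS_mul').val (ZW G W0) := by
      show _ = act (blk PS) (ZW G W0)
      have : ZW G W0 = mk 1 1 Complex.I Complex.I 0 := by rw [ZW_W0]; rfl
      simp only [γ]
      rw [this, act_PS]
      have h2 : Complex.exp (((1 : ℝ) : ℂ) * (Real.pi / 2 * Complex.I)) = Complex.I := by
        rw [Complex.ofReal_one, one_mul, Complex.exp_pi_div_two_mul_I]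
      rw [h2]
      have h3 := smul_mk (r := r) Complex.I 1 1 Complex.I Complex.I 0
      have h4 : (Complex.I • mk (1 : ℂ) 1 Complex.I Complex.I (0 : Fin r → ℂ)) =
          fun i => Complex.I * mk (1 : ℂ) 1 Complex.I Complex.I (0 : Fin r → ℂ) i := by
        funext i; rfl
      rw [h4, h3]
      congr 1 <;> simp
      funext i
      simp
    rw [← hγ1]
    apply path_mem γ
    · simp only [γ]
      fun_prop
    · simp [γ]
    · intro s _
      have hb := base_mem G
      rw [mem_quadric] at hb ⊢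
      simp only [γ]
      have f2 : (fun i => (starRingEnd ℂ)
          ((Complex.exp (s * (Real.pi / 2 * Complex.I)) • ZW G W0) i)) =
          (starRingEnd ℂ (Complex.exp (s * (Real.pi / 2 * Complex.I)))) •
            fun i => (starRingEnd ℂ) (ZW G W0 i) := by
        funext i; simp
      rw [f2, bf_smul_left, bf_smul_right, bf_smul_left, bf_smul_right, hb.1]
      refine ⟨by simp, ?_⟩
      rw [← mul_assoc, Complex.mul_conj, Complex.re_ofReal_mul]
      exact mul_pos (Complex.normSq_pos.2 (Complex.exp_ne_zero _)) hb.2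
  · exact blk_disc PS

theorem PW_mem : blkG PW_mul PW_mul ∈ discKernel (gramM G) (coneM G) := by
  rw [coneM_eq]
  apply mem_disc (base_mem G)
  · intro x y
    show bf _ (act (blk PW) x) (act (blk PW) y) = bf _ x y
    rw [mk_eta x, mk_eta y, act_PW, act_PW, bf_mk, bf_mk]
    ring
  · have : act (blkG PW_mul PW_mul).val (ZW G W0) = ZW G W0 := by
      show act (blk PW) (ZW G W0) = ZW G W0
      have : ZW G W0 = mk 1 1 Complex.I Complex.I 0 := by rw [ZW_W0]; rfl
      rw [this, act_PW]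
    rw [this]
    exact mem_connectedComponentIn (base_mem G)
  · exact blk_disc PW

end

end Pool.Agent.Y813.LE
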