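import Pool.Agent.Y813.LE.Exp

set_option autoImplicit false
set_option linter.unusedSectionVars false

/-!
# Geometry of the walls
-/

namespace Pool.Agent.Y813.LE

open Complex Set Finset Pool.Agent.Y813.RL

noncomputable section

variable {r : ℕ} {G : Matrix (Fin r) (Fin r) ℤ}

/-- real version of an integral vector -/
def vr (v : Fin r → ℤ) : Fin r → ℝ := fun i => (v i : ℝ)

theorem bf_vr (v w : Fin r → ℤ) : bf G (vr v) (vr w) = ((bf G v w : ℤ) : ℝ) := bf_intCast G v w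

theorem bfC_re (v : Fin r → ℤ) (z : Fin r → ℂ) :
    (bf G (fun i => (v i : ℂ)) z).re = bf G (vr v) (rev z) := by
  rw [bf_re]
  have h1 : rev (fun i => ((v i : ℤ) : ℂ)) = vr v := by funext i; simp [rev, vr]
  have h2 : imv (fun i => ((v i : ℤ) : ℂ)) = 0 := by funext i; simp [imv]
  rw [h1, h2, bf_zero_left]
  ring

theorem bfC_im (v : Fin r → ℤ) (z : Fin r → ℂ) :
    (bf G (fun i => (v i : ℂ)) z).im = bf G (vr v) (imv z) := by
  rw [bf_im]
  have h1 : rev (fun i => ((v i : ℤ) : ℂ)) = vr v := by funext i; simp [rev, vr]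
  have h2 : imv (fun i => ((v i : ℤ) : ℂ)) = 0 := by funext i; simp [imv]
  rw [h1, h2, bf_zero_left]
  ring

/-- the covector of a wall -/
def Pw (m n : ℤ) (v : Fin r → ℤ) : ℝ × (ℝ × (Fin r → ℝ)) := ((n : ℝ), ((m : ℝ), -vr v))

theorem kf_Pw (m n : ℤ) (v : Fin r → ℤ) (Y : ℝ × (ℝ × (Fin r → ℝ))) :
    kf G (Pw m n v) Y = n * Y.2.1 + m * Y.1 + bf G (vr v) Y.2.2 := by
  simp only [kf, Pw, bf_neg_left]
  ring

theorem kf_Pw_Pw (m n : ℤ) (v : Fin r → ℤ) :
    kf G (Pw m n v) (Pw m n v) = 2 * m * n - ((bf G v v : ℤ) : ℝ) := by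
  simp only [kf, Pw, bf_neg_left, bf_neg_right, bf_vr]
  ring

theorem WL_im (h : PosD G) {a b m n : ℤ} {v : Fin r → ℤ} {W : TP r} (hW : WL G a b m n v W = 0) :
    kf G (Pw m n v) (imW W) = a * kf G (reW W) (imW W) := by
  have h1 := congrArg Complex.im hW
  rw [kf_Pw]
  unfold WL at h1
  simp only [Complex.add_im, Complex.zero_im, Complex.mul_im, Complex.intCast_re,
    Complex.intCast_im, zero_mul, add_zero, Complex.sub_im, bfC_im] at h1
  have h2 : (bf G W.2.2 W.2.2 / 2).im = bf G (rev W.2.2) (imv W.2.2) := by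
    have : (bf G W.2.2 W.2.2 / 2) = (((1 / 2 : ℝ)) : ℂ) * bf G W.2.2 W.2.2 := by
      push_cast; ring
    rw [this, Complex.im_ofReal_mul, bf_im, bf_comm h.symm (imv W.2.2) (rev W.2.2)]
    ring
  rw [h2] at h1
  simp only [imW, reW, kf]
  linarith

theorem WL_re {a b m n : ℤ} {v : Fin r → ℤ} {W : TP r} (hW : WL G a b m n v W = 0) :
    kf G (Pw m n v) (reW W) =
      a * (kf G (reW W) (reW W) - kf G (imW W) (imW W)) / 2 - b := by
  have h1 := congrArg Complex.re hW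
  rw [kf_Pw]
  unfold WL at h1
  simp only [Complex.add_re, Complex.zero_re, Complex.mul_re, Complex.mul_im, Complex.intCast_re,
    Complex.intCast_im, zero_mul, sub_zero, Complex.sub_re, bfC_re] at h1
  have h2 : (bf G W.2.2 W.2.2 / 2).re =
      (bf G (rev W.2.2) (rev W.2.2) - bf G (imv W.2.2) (imv W.2.2)) / 2 := by
    have : (bf G W.2.2 W.2.2 / 2) = (((1 / 2 : ℝ)) : ℂ) * bf G W.2.2 W.2.2 := by
      push_cast; ring
    rw [this, Complex.re_ofReal_mul, bf_re]
    ring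
  rw [h2] at h1
  simp only [imW, reW, kf]
  linarith

theorem wall_a (h : PosD G) {a b m n : ℤ} {v : Fin r → ℤ} {W : TP r} (hWm : W ∈ Hd G)
    (hW : WL G a b m n v W = 0) (hν : bf G v v - 2 * (a * b) - 2 * (m * n) = 2)
    (hY : 2 < kf G (imW W) (imW W)) : a = 0 := by
  by_contra ha
  have ha' : (a : ℝ) ≠ 0 := by exact_mod_cast ha
  have hνR : ((bf G v v : ℤ) : ℝ) - 2 * (a * b) - 2 * (m * n) = 2 := by exact_mod_cast hν
  have hWm' := mem_Hd'.1 hWm
  have h1 := WL_im h hW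
  have h2 := WL_re hW
  set P := Pw m n v with hP
  have h3 : kf G P P = 2 * m * n - ((bf G v v : ℤ) : ℝ) := kf_Pw_Pw m n v
  set X' := reW W + (-(a : ℝ)⁻¹) • P with hX'
  have h4 : kf G X' (imW W) = 0 := by
    rw [hX', kf_add_left, kf_smul_left, h1]
    field_simp
    ring
  have h5 : kf G X' X' = kf G (imW W) (imW W) - 2 / (a : ℝ) ^ 2 := by
    rw [hX', kf_add_left, kf_add_right, kf_add_right, kf_smul_left, kf_smul_left, kf_smul_right,
      kf_smul_right, kf_comm h.symm (reW W) P, h2, h3]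
    field_simp
    linear_combination (-2) * hνR
  have h6 := rcs h (X := X') (Y := imW W) (by
    have := hWm'.1
    exact ne_of_gt this) hWm'.2
  rw [h4] at h6
  have h7 : kf G X' X' ≤ 0 := by
    by_contra hc
    push Not at hc
    have := mul_pos hc hWm'.2
    linarith
  rw [h5] at h7
  have h8 : (1 : ℝ) ≤ (a : ℝ) ^ 2 := by
    have : (1 : ℤ) ≤ a ^ 2 := by
      have := Int.one_le_abs ha
      nlinarith [sq_abs a]
    exact_mod_cast this
  have h9 : 2 / (a : ℝ) ^ 2 ≤ 2 := by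
    rw [div_le_iff₀ (by positivity)]
    nlinarith
  linarith

/-- the direction `x = Im z / Im tau` -/
def xp (p : ℂ × (Fin r → ℂ)) : Fin r → ℝ := (p.1.im)⁻¹ • imv p.2

/-- the height -/
def ht (G : Matrix (Fin r) (Fin r) ℤ) (W : TP r) : ℝ :=
  W.1.im / W.2.1.im - bf G (xp W.2) (xp W.2) / 2

theorem kf_im_eq {W : TP r} (hτ : 0 < W.2.1.im) :
    kf G (imW W) (imW W) = 2 * W.2.1.im ^ 2 * ht G W := by
  simp only [ht, xp, bf_smul_left, bf_smul_right, kf, imW]
  field_simp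
  ring

theorem ht_pos {W : TP r} (hW : W ∈ Hd G) : 0 < ht G W := by
  have h1 := mem_Hd'.1 hW
  rw [kf_im_eq h1.1] at h1
  have := h1.1
  by_contra hc
  push Not at hc
  have := h1.2
  nlinarith [mul_nonneg (sq_nonneg W.2.1.im) (neg_nonneg.2 hc)]

/-- for `a = 0` the height is determined by the wall -/
theorem height_eq (h : PosD G) {b m n : ℤ} {v : Fin r → ℤ} {W : TP r} (hτ : 0 < W.2.1.im)
    (hW : WL G 0 b m n v W = 0) :
    (m : ℝ) * (W.1.im / W.2.1.im) + n + bf G (vr v) (xp W.2) = 0 := by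
  have h1 := WL_im h hW
  rw [kf_Pw] at h1
  simp only [Int.cast_zero, zero_mul, imW] at h1
  unfold xp
  rw [bf_smul_right]
  field_simp
  linarith

/-- completing the square -/
theorem square_id (h : PosD G) (m n : ℤ) (v : Fin r → ℤ) (x : Fin r → ℝ) (t : ℝ)
    (hn : bf G v v - 2 * (m * n) = 2) (ht : (m : ℝ) * t + n + bf G (vr v) x = 0) :
    1 = (m : ℝ) ^ 2 * (t - bf G x x / 2) + bf G (vr v + (m : ℝ) • x) (vr v + (m : ℝ) • x) / 2 := by
  have hnR : ((bf G v v : ℤ) : ℝ) - 2 * (m * n) = 2 := by exact_mod_cast hn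
  rw [bf_add_left, bf_add_right, bf_add_right, bf_smul_left, bf_smul_left, bf_smul_right,
    bf_smul_right, bf_comm h.symm x (vr v), bf_vr]
  have h2 : (n : ℝ) = -(m * t) - bf G (vr v) x := by linarith
  rw [h2] at hnR
  linear_combination -hnR / 2

/-- **zeros high up** -/
theorem zero_wall (h : PosD G) {k : ℤ} {β : ℕ} {F : TP r → ℂ} (hF : TubeForm G k β F) {W : TP r}
    (hW : W ∈ Hd G) (hFW : F W = 0) (hY : 1 < W.2.1.im ^ 2 * ht G W) :
    ∃ (b m n : ℤ) (v : Fin r → ℤ), bf G v v - 2 * (m * n) = 2 ∧ WL G 0 b m n v W = 0 := by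
  obtain ⟨a, b, m, n, v, hw, he⟩ := hF.zeros W hW hFW
  have ha := wall_a h hW he hw (by
    rw [kf_im_eq (mem_Hd'.1 hW).1]
    linarith)
  subst ha
  exact ⟨b, m, n, v, by linarith, he⟩

theorem WL_neg (a b m n : ℤ) (v : Fin r → ℤ) (W : TP r) :
    WL G (-a) (-b) (-m) (-n) (-v) W = -WL G a b m n v W := by
  unfold WL
  have : (fun i => (((-v) i : ℤ) : ℂ)) = -fun i => (v i : ℂ) := by funext i; simp
  rw [this, bf_neg_left]
  push_cast
  ring

theorem bf_neg_neg (v : Fin r → ℤ) : bf G (-v) (-v) = bf G v v := by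
  rw [bf_neg_left, bf_neg_right, neg_neg]

/-- a wall above the paraboloid in a root free lattice has `m ≠ 0` -/
theorem m_ne_zero (h : ER G) {m n : ℤ} {v : Fin r → ℤ} (hn : bf G v v - 2 * (m * n) = 2) :
    m ≠ 0 := by
  rintro rfl
  exact h.noroot v (by linarith)

/-- **zeros high up**, normalised -/
theorem zero_wall' (h : ER G) {k : ℤ} {β : ℕ} {F : TP r → ℂ} (hF : TubeForm G k β F) {W : TP r}
    (hW : W ∈ Hd G) (hFW : F W = 0) (hY : 1 < W.2.1.im ^ 2 * ht G W) :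
    ∃ (b m n : ℤ) (v : Fin r → ℤ), 0 < m ∧ bf G v v - 2 * (m * n) = 2 ∧ WL G 0 b m n v W = 0 := by
  obtain ⟨b, m, n, v, hn, he⟩ := zero_wall h.toPosD hF hW hFW hY
  rcases lt_or_gt_of_ne (m_ne_zero h hn) with hm | hm
  · refine ⟨-b, -m, -n, -v, by omega, ?_, ?_⟩
    · rw [bf_neg_neg]; linarith
    · have := WL_neg (G := G) 0 b m n v W
      rw [he] at this
      simpa using this
  · exact ⟨b, m, n, v, hm, hn, he⟩

/-- coordinate bound -/
theorem hgt_eq (m n : ℤ) (v : Fin r → ℤ) (x : Fin r → ℝ) (t : ℝ) (hm : 0 < m)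
    (ht : (m : ℝ) * t + n + bf G (vr v) x = 0) : t = -((n : ℝ) + bf G (vr v) x) / m := by
  have : (0 : ℝ) < m := by exact_mod_cast hm
  field_simp
  linarith

end

end Pool.Agent.Y813.LE
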